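import Pool.Agent.N885.ET.Sum

/-!
Selection of good parameters for all scales, with the sum condition.
-/

namespace Pool.Agent.N885.ET

open Finset Pool.Agent.R447.SB

open Classical in
lemma cross_horizon {R j0 j J μ ν N0 K : ℕ} (hj : j < J) {B : ℝ} (hB : 1 ≤ B)
    (hBμ : B ^ μ * (4 * μ ^ 2) ≤ pr j) :
    ((univ.filter (fun x : (∀ i : Fin J, Om i) => (ClassOK R j0 j μ (ext Om x) ∧
      SumOK R j0 j ν (ext Om x)) ∧
      BadCross (cvs j) (SS R j0 j (ext Om x)) R N0 K (ext Om x j).1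
        (fun ι => ((ext Om x j).2 ι : ℕ)))).card : ℝ) ≤
      (N0 * (R * 6) * Real.exp (B * ν / pr j + 6) / B ^ K) *
        Fintype.card (∀ i : Fin J, Om i) := by
  set c : ℝ := N0 * (R * 6) * Real.exp (B * ν / pr j + 6) / B ^ K with hc
  have hc0 : 0 ≤ c := by positivity
  set Q : (∀ i : Fin J, Om i) → Prop := fun x => (ClassOK R j0 j μ (ext Om x) ∧
      SumOK R j0 j ν (ext Om x)) ∧
      BadCross (cvs j) (SS R j0 j (ext Om x)) R N0 K (ext Om x j).1
        (fun ι => ((ext Om x j).2 ι : ℕ)) with hQ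
  set F : (∀ i : Fin J, Om i) → ℝ := fun x => if Q x then 1 else 0 with hF
  have h1 : ((univ.filter Q).card : ℝ) = ∑ x, F x := by
    rw [hF, ← sum_filter]
    simp
  have h2 := sum_update (fun i : Fin J => Om i) F ⟨j, hj⟩
  have hcardpos : (0 : ℝ) < Fintype.card (Om j) := by exact_mod_cast Fintype.card_pos
  have h3 : ∀ x : (∀ i : Fin J, Om i), ∑ y : Om j, F (Function.update x ⟨j, hj⟩ y) ≤
      c * Fintype.card (Om j) := by
    intro x
    have e1 : ∀ y : Om j, ∀ i < j, ext Om (Function.update x ⟨j, hj⟩ y) i = ext Om x i := by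
      intro y i hi
      rw [ext_apply Om _ i (by omega), ext_apply Om _ i (by omega), Function.update_of_ne]
      intro h
      have := congrArg Fin.val h
      simp only at this
      omega
    have e2 : ∀ y : Om j, ext Om (Function.update x ⟨j, hj⟩ y) j = y := by
      intro y
      rw [ext_apply Om _ j hj, Function.update_self]
    have e3 : ∀ y : Om j, Q (Function.update x ⟨j, hj⟩ y) ↔ ((ClassOK R j0 j μ (ext Om x) ∧
        SumOK R j0 j ν (ext Om x)) ∧
        BadCross (cvs j) (SS R j0 j (ext Om x)) R N0 K y.1 (fun ι => (y.2 ι : ℕ))) := by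
      intro y
      rw [hQ]
      simp only
      rw [ClassOK_congr R j0 j μ (e1 y), SumOK_congr R j0 j ν (e1 y), SS_congr R j0 j (e1 y), e2]
    have e4 : ∑ y : Om j, F (Function.update x ⟨j, hj⟩ y) = ∑ y : Om j,
        if ((ClassOK R j0 j μ (ext Om x) ∧ SumOK R j0 j ν (ext Om x)) ∧
        BadCross (cvs j) (SS R j0 j (ext Om x)) R N0 K y.1 (fun ι => (y.2 ι : ℕ))) then (1 : ℝ)
        else 0 := by
      refine sum_congr rfl fun y _ => ?_
      rw [hF]
      simp only
      simp only [e3 y]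
    rw [e4]
    by_cases hOK : ClassOK R j0 j μ (ext Om x) ∧ SumOK R j0 j ν (ext Om x)
    · have e5 : ∑ y : Om j, (if ((ClassOK R j0 j μ (ext Om x) ∧ SumOK R j0 j ν (ext Om x)) ∧
        BadCross (cvs j) (SS R j0 j (ext Om x)) R N0 K y.1 (fun ι => (y.2 ι : ℕ))) then (1 : ℝ)
        else 0) = ∑ τ ∈ range (pr j ^ 2 * pr j ^ 2), ((univ.filter
          (fun t : (Idx (pr j) → Fin (pr j ^ 2)) =>
            BadCross (cvs j) (SS R j0 j (ext Om x)) R N0 K τ (fun ι => (t ι : ℕ)))).card : ℝ) := by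
        rw [om_sum j (fun τ t => if ((ClassOK R j0 j μ (ext Om x) ∧ SumOK R j0 j ν (ext Om x)) ∧
          BadCross (cvs j) (SS R j0 j (ext Om x)) R N0 K τ (fun ι => (t ι : ℕ))) then (1 : ℝ)
          else 0)]
        refine sum_congr rfl fun τ _ => ?_
        rw [← sum_filter]
        simp [hOK]
      rw [e5]
      calc _ ≤ ∑ τ ∈ range (pr j ^ 2 * pr j ^ 2), c *
            Fintype.card (Idx (pr j) → Fin (pr j ^ 2)) := by
            refine sum_le_sum fun τ _ => ?_
            exact cross_prob (cvs j) (pr_pos j) _ μ ν hOK.1 hOK.2 R N0 K τ hB hBμ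
        _ = c * Fintype.card (Om j) := by
            rw [sum_const, card_range, nsmul_eq_mul, Fintype.card_prod, Fintype.card_fin]
            push_cast
            ring
    · simp only [hOK, false_and, if_false, sum_const_zero]
      positivity
  have h4 : (∑ x, F x) * Fintype.card (Om j) ≤
      (c * Fintype.card (∀ i : Fin J, Om i)) * Fintype.card (Om j) := by
    have h2' : (∑ x, F x) * (Fintype.card (Om j) : ℝ) =
      ∑ x : (∀ i : Fin J, Om i), ∑ y : Om j, F (Function.update x ⟨j, hj⟩ y) := h2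
    rw [h2']
    calc _ ≤ ∑ x : (∀ i : Fin J, Om i), c * Fintype.card (Om j) := sum_le_sum fun x _ => h3 x
      _ = _ := by
          rw [sum_const, card_univ, nsmul_eq_mul]
          ring
  rw [h1]
  exact le_of_mul_le_mul_right h4 hcardpos

/-- too large truncated sums -/
def BadSum (R j0 j Y ν : ℕ) (x : ∀ i, Om i) : Prop :=
  ∃ ρ < pr j ^ 2, ν ≤ ∑ i ∈ Irel R j0 j, YY R i j ρ Y (x i)

/-- the bad event at scale `j` -/
def BadEv (R j0 : ℕ) (μ ν K K1 N0 : ℕ → ℕ) (j : ℕ) (x : ∀ i, Om i) : Prop :=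
  j0 ≤ j ∧ (¬ ClassOK R j0 j (μ j) x ∨ (∃ i ∈ Irel R j0 j, BadSp R i j (K1 j) (x i)) ∨
    BadSum R j0 j (72 * R * K1 j) (ν j) x ∨
    ((ClassOK R j0 j (μ j) x ∧ SumOK R j0 j (6 * pr j + ν j) x) ∧
    BadCross (cvs j) (SS R j0 j x) R (N0 j) (K j) (x j).1 (fun ι => ((x j).2 ι : ℕ))))

lemma BadEv_congr {R j0 : ℕ} {μ ν K K1 N0 : ℕ → ℕ} {j : ℕ} {x y : ∀ i, Om i}
    (hxy : ∀ i ≤ j, x i = y i) (h : BadEv R j0 μ ν K K1 N0 j x) : BadEv R j0 μ ν K K1 N0 j y := by
  have h1 : ∀ i < j, x i = y i := fun i hi => hxy i hi.le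
  refine ⟨h.1, ?_⟩
  rcases h.2 with h2 | ⟨i, hi, h2⟩ | ⟨ρ, hρ, h2⟩ | h2
  · left
    rwa [ClassOK_congr R j0 j (μ j) h1] at h2
  · right; left
    refine ⟨i, hi, ?_⟩
    rwa [← h1 i (mem_Ico.1 (mem_filter.1 hi).1).2]
  · right; right; left
    refine ⟨ρ, hρ, h2.trans (le_of_eq ?_)⟩
    refine sum_congr rfl fun i hi => ?_
    rw [h1 i (mem_Ico.1 (mem_filter.1 hi).1).2]
  · right; right; right
    rw [ClassOK_congr R j0 j (μ j) h1, SumOK_congr R j0 j _ h1, SS_congr R j0 j h1,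
      hxy j le_rfl] at h2
    exact h2

/-- There are parameters which are good at all scales. -/
theorem exists_good (R j0 : ℕ) (hR : 0 < R) (μ ν K K1 L L2 L3 N0 : ℕ → ℕ) (B1 B2 e : ℕ → ℝ)
    (hB1 : ∀ j, 1 ≤ B1 j) (hB2 : ∀ j, 1 ≤ B2 j) (he : ∀ j, 0 ≤ e j)
    (hL2 : ∀ j, j0 ≤ j → 1 ≤ L2 j)
    (hG : ∀ j, j0 ≤ j → 4 * ((R : ℝ) + 2) * Real.exp (36 * R * (B1 j) ^ R) ≤ 4 ^ (L j))
    (hBμ : ∀ j, j0 ≤ j → (B2 j) ^ (μ j) * (4 * (μ j) ^ 2) ≤ pr j)
    (hsp : ∀ j, j0 ≤ j → ∀ i ∈ Irel R j0 j,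
      864 * (1 + 1 / (2 * (L2 j : ℝ))) ^ (6 * pr j) * (pr j : ℝ) ^ 2 ≤ (L2 j) ^ 2 * pr i)
    (hK1 : ∀ j, j0 ≤ j → 216 * R * pr j ≤ 72 * R * K1 j)
    (hG3 : ∀ j, j0 ≤ j → 4 * ((R : ℝ) + 2) * Real.exp (e j) ≤ 4 ^ (L3 j))
    (hb1 : ∀ j, j0 ≤ j → ((pr j ^ 2 : ℕ) : ℝ) * (2 * 4 ^ ((L j) ^ 2)) / (B1 j) ^ (μ j) ≤
      (1 / 2) ^ (j + 3))
    (hb2 : ∀ j, j0 ≤ j → (j : ℝ) * (((pr j ^ 2 : ℕ) * (R * 6) *
      Real.exp (36 * pr j / L2 j + 1) / (1 + 1 / (2 * (L2 j : ℝ))) ^ (K1 j))) ≤ (1 / 2) ^ (j + 3))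
    (hb3 : ∀ j, j0 ≤ j → ((pr j ^ 2 : ℕ) : ℝ) * (2 * 4 ^ ((L3 j) ^ 2)) /
      Real.exp (e j / (72 * R * K1 j : ℕ)) ^ (ν j) ≤ (1 / 2) ^ (j + 3))
    (hb4 : ∀ j, j0 ≤ j → ((N0 j : ℝ) * (R * 6) *
      Real.exp (B2 j * (6 * pr j + ν j : ℕ) / pr j + 6) / (B2 j) ^ (K j)) ≤
      (1 / 2) ^ (j + 3)) :
    ∃ x : ∀ i, Om i, ∀ j, j0 ≤ j →
      ¬ BadCross (cvs j) (SS R j0 j x) R (N0 j) (K j) (x j).1 (fun ι => ((x j).2 ι : ℕ)) := by
  classical
  obtain ⟨x, hx⟩ := select Om (BadEv R j0 μ ν K K1 N0)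
    (fun j x y hxy h => BadEv_congr hxy h)
    (fun j => (1 / 2) ^ (j + 1))
    (by
      intro J
      rw [half_sum]
      have : (0 : ℝ) < (1 / 2) ^ J := by positivity
      linarith)
    (by
      intro J j hj
      set C : ℝ := (Fintype.card (∀ i : Fin J, Om i) : ℝ) with hC
      have hP0 : (0 : ℝ) ≤ C := by positivity
      by_cases hj0 : j0 ≤ j
      · have h1 := class_prob (j0 := j0) (μ := μ j) hR hj (hB1 j) (hG j hj0)
        have h3 := sum_prob (j0 := j0) (ν := ν j) hR hj (hK1 j hj0) (he j) (hG3 j hj0)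
        have h4 := cross_horizon (R := R) (j0 := j0) (ν := 6 * pr j + ν j) (N0 := N0 j) (K := K j) hj
          (hB2 j) (hBμ j hj0)
        set E1 : Finset (∀ i : Fin J, Om i) := univ.filter (fun x : (∀ i : Fin J, Om i) =>
          ¬ ClassOK R j0 j (μ j) (ext Om x)) with hE1
        set E3 : Finset (∀ i : Fin J, Om i) := univ.filter (fun x : (∀ i : Fin J, Om i) =>
          ∃ ρ < pr j ^ 2, ν j ≤ ∑ i ∈ Irel R j0 j, YY R i j ρ (72 * R * K1 j) (ext Om x i)) with hE3
        set E4 : Finset (∀ i : Fin J, Om i) := univ.filter (fun x : (∀ i : Fin J, Om i) =>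
          (ClassOK R j0 j (μ j) (ext Om x) ∧ SumOK R j0 j (6 * pr j + ν j) (ext Om x)) ∧
          BadCross (cvs j) (SS R j0 j (ext Om x)) R (N0 j) (K j) (ext Om x j).1
            (fun ι => ((ext Om x j).2 ι : ℕ))) with hE4
        set E2 : ℕ → Finset (∀ i : Fin J, Om i) := fun i =>
          univ.filter (fun x : (∀ i : Fin J, Om i) => BadSp R i j (K1 j) (ext Om x i)) with hE2
        set c2 : ℝ := (((pr j ^ 2 : ℕ) * (R * 6) *
          Real.exp (36 * pr j / L2 j + 1) / (1 + 1 / (2 * (L2 j : ℝ))) ^ (K1 j))) with hc2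
        have hc20 : 0 ≤ c2 := by positivity
        have h2 : (((Irel R j0 j).biUnion E2).card : ℝ) ≤ (j * c2) * C := by
          calc (((Irel R j0 j).biUnion E2).card : ℝ) ≤ ((∑ i ∈ Irel R j0 j, (E2 i).card : ℕ) : ℝ) := by
                exact_mod_cast card_biUnion_le
            _ ≤ ∑ i ∈ Irel R j0 j, c2 * C := by
                push_cast
                refine sum_le_sum fun i hi => ?_
                exact spread_horizon (mem_Ico.1 (mem_filter.1 hi).1).2 hj (hL2 j hj0) (hsp j hj0 i hi)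
            _ = (Irel R j0 j).card * (c2 * C) := by rw [sum_const, nsmul_eq_mul]
            _ ≤ j * (c2 * C) := by
                have : (Irel R j0 j).card ≤ j := by
                  refine (card_filter_le _ _).trans ?_
                  rw [Nat.card_Ico]
                  exact Nat.sub_le _ _
                have h' : ((Irel R j0 j).card : ℝ) ≤ j := by exact_mod_cast this
                gcongr
            _ = (j * c2) * C := by ring
        have hsub : (univ.filter (fun x : (∀ i : Fin J, Om i) =>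
            BadEv R j0 μ ν K K1 N0 j (ext Om x))) ⊆
            E1 ∪ ((Irel R j0 j).biUnion E2 ∪ (E3 ∪ E4)) := by
          intro x hx
          rcases (mem_filter.1 hx).2.2 with h | ⟨i, hi, h⟩ | h | h
          · exact mem_union_left _ (mem_filter.2 ⟨mem_univ _, h⟩)
          · refine mem_union_right _ (mem_union_left _ ?_)
            exact mem_biUnion.2 ⟨i, hi, mem_filter.2 ⟨mem_univ _, h⟩⟩
          · refine mem_union_right _ (mem_union_right _ (mem_union_left _ ?_))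
            exact mem_filter.2 ⟨mem_univ _, h⟩
          · refine mem_union_right _ (mem_union_right _ (mem_union_right _ ?_))
            exact mem_filter.2 ⟨mem_univ _, h⟩
        have h5 : ((univ.filter (fun x : (∀ i : Fin J, Om i) =>
            BadEv R j0 μ ν K K1 N0 j (ext Om x))).card : ℝ) ≤
            (E1.card : ℝ) + ((((Irel R j0 j).biUnion E2).card : ℝ) + ((E3.card : ℝ) + (E4.card : ℝ))) := by
          have := (card_le_card hsub).trans ((card_union_le _ _).trans (Nat.add_le_add_left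
            ((card_union_le _ _).trans (Nat.add_le_add_left (card_union_le _ _) _)) _))
          exact_mod_cast this
        refine h5.trans ?_
        have f1 := mul_le_mul_of_nonneg_right (hb1 j hj0) hP0
        have f2 := mul_le_mul_of_nonneg_right (hb2 j hj0) hP0
        have f3 := mul_le_mul_of_nonneg_right (hb3 j hj0) hP0
        have f4 := mul_le_mul_of_nonneg_right (hb4 j hj0) hP0
        have f5 : (1 / 2 : ℝ) ^ (j + 1) = 4 * (1 / 2) ^ (j + 3) := by ring
        rw [f5]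
        linarith
      · have : (univ.filter (fun x : (∀ i : Fin J, Om i) =>
            BadEv R j0 μ ν K K1 N0 j (ext Om x))) = ∅ := by
          rw [filter_eq_empty_iff]
          intro x _ hx
          exact hj0 hx.1
        rw [this]
        simp only [card_empty, Nat.cast_zero]
        positivity)
  refine ⟨x, fun j hj hbad => ?_⟩
  have h := hx j
  unfold BadEv at h
  push Not at h
  have h' := h hj
  have hcl : ClassOK R j0 j (μ j) x := h'.1
  have hsp' : ∀ i ∈ Irel R j0 j, ¬ BadSp R i j (K1 j) (x i) := fun i hi => h'.2.1 i hi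
  have hsum : ¬ BadSum R j0 j (72 * R * K1 j) (ν j) x := h'.2.2.1
  have hS : SumOK R j0 j (6 * pr j + ν j) x := by
    refine sumOK_of hsp' ?_
    intro ρ hρ
    unfold BadSum at hsum
    push Not at hsum
    exact hsum ρ hρ
  exact h'.2.2.2 ⟨hcl, hS⟩ hbad

end Pool.Agent.N885.ET
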