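import Pool.Agent.R447.SB.Params
import Pool.Agent.N885.ET.Select

/-!
Choice of the parameters.
-/

namespace Pool.Agent.N885.ET

open Finset Pool.Agent.R447.SB

/-- bound for the classes -/
def mu2 (j : ℕ) : ℕ := (5 * j + 14) / (100 * 2 ^ kk j) + 1

/-- base of the exponential moments of the cross representations -/
def bb (j : ℕ) : ℕ := 2 ^ 2 ^ kk j

/-- bound for the cross representations -/
def Kn (j : ℕ) : ℕ := (6 * j + 54) / 2 ^ kk j + 1

/-- bound for the coincidences of one type -/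
noncomputable def K1 (j : ℕ) : ℕ := 1536 * pr j

noncomputable def L2 (j : ℕ) : ℕ := 64 * pr j / j

/-- bound for the truncated sums -/
noncomputable def nu (j : ℕ) : ℕ := (72 * 641 * K1 j) * (7 * (Nat.sqrt j + 2))

set_option linter.unusedSectionVars false

section
variable {j : ℕ} (hj : 21 ≤ Nat.log 2 (Nat.log 2 j))
include hj

lemma mu2_bound : 100 * (2 ^ kk j * mu2 j) ≤ 5 * j + 14 + 100 * 2 ^ kk j := by
  unfold mu2
  have h := Nat.mul_div_le (5 * j + 14) (100 * 2 ^ kk j)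
  calc 100 * (2 ^ kk j * ((5 * j + 14) / (100 * 2 ^ kk j) + 1))
      = (100 * 2 ^ kk j) * ((5 * j + 14) / (100 * 2 ^ kk j)) + 100 * 2 ^ kk j := by ring
    _ ≤ _ := by omega

lemma mu2_theta : 5 * j + 14 ≤ (100 * 2 ^ kk j) * mu2 j := by
  unfold mu2
  have hpos : 0 < 100 * 2 ^ kk j := by positivity
  exact (Nat.lt_mul_div_succ (5 * j + 14) hpos).le

lemma Kn_eta : 6 * j + 54 ≤ 2 ^ kk j * Kn j := by
  unfold Kn
  exact (Nat.lt_mul_div_succ (6 * j + 54) (by positivity)).le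

lemma two_le_kk : 2 ≤ 2 ^ kk j := by
  have := kk_pos hj
  calc 2 = 2 ^ 1 := rfl
    _ ≤ 2 ^ kk j := Nat.pow_le_pow_right (by norm_num) this

lemma b_mu : (2 ^ kk j + 2) * mu2 j ≤ j := by
  have h1 := mu2_bound hj
  have h2 := pow_kk_le' hj
  have h3 := two_le_kk hj
  calc (2 ^ kk j + 2) * mu2 j ≤ (2 * 2 ^ kk j) * mu2 j := Nat.mul_le_mul_right _ (by omega)
    _ = 2 * (2 ^ kk j * mu2 j) := by ring
    _ ≤ j := by omega

lemma bb_ge : 4 ≤ bb j := by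
  unfold bb
  calc 4 = 2 ^ 2 := rfl
    _ ≤ 2 ^ 2 ^ kk j := Nat.pow_le_pow_right (by norm_num) (two_le_kk hj)

lemma bb_pow : bb j ^ (2 ^ 20) ≤ j := by
  unfold bb
  rw [← pow_mul, ← pow_add]
  exact (Nat.pow_le_pow_right (by norm_num) (pow_kk_le hj)).trans (pow_log_le hj)

lemma bb_sqrt : bb j * 2 ^ 32 ≤ Nat.sqrt j := by
  have h1 := bb_pow hj
  have h4 := bb_ge hj
  have h2 : bb j ^ 17 ≤ Nat.sqrt j := by
    rw [Nat.le_sqrt']
    calc (bb j ^ 17) ^ 2 = bb j ^ 34 := by rw [← pow_mul]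
      _ ≤ bb j ^ (2 ^ 20) := Nat.pow_le_pow_right (by omega) (by norm_num)
      _ ≤ j := h1
  refine le_trans ?_ h2
  calc bb j * 2 ^ 32 = bb j * 4 ^ 16 := by norm_num
    _ ≤ bb j * bb j ^ 16 := Nat.mul_le_mul_left _ (Nat.pow_le_pow_left h4 16)
    _ = bb j ^ 17 := by ring

lemma sqrt_ge : 2 ^ 34 ≤ Nat.sqrt j := by
  have h1 := bb_sqrt hj
  have h2 := bb_ge hj
  calc 2 ^ 34 = 4 * 2 ^ 32 := by norm_num
    _ ≤ bb j * 2 ^ 32 := Nat.mul_le_mul_right _ h2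
    _ ≤ _ := h1

lemma j_ge : 2 ^ 34 ≤ j := (sqrt_ge hj).trans (Nat.sqrt_le_self j)

/-- condition (b) -/
lemma cond_B' : ((bb j : ℕ) : ℝ) ^ mu2 j * (4 * (mu2 j : ℝ) ^ 2) ≤ pr j := by
  have h1 : (bb j) ^ mu2 j * (4 * (mu2 j) ^ 2) ≤ pr j := by
    have h2 : mu2 j ≤ 2 ^ mu2 j := Nat.lt_two_pow_self.le
    unfold bb
    calc (2 ^ 2 ^ kk j) ^ mu2 j * (4 * (mu2 j) ^ 2) ≤ (2 ^ 2 ^ kk j) ^ mu2 j * (4 * (2 ^ mu2 j) ^ 2) := by
          gcongr
      _ = 2 ^ ((2 ^ kk j + 2) * mu2 j + 2) := by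
          rw [← pow_mul, ← pow_mul, pow_add, add_mul, pow_add]
          ring
      _ ≤ 2 ^ (j + 4) := Nat.pow_le_pow_right (by norm_num) (by have := b_mu hj; omega)
      _ ≤ pr j := (pr_gt j).le
  exact_mod_cast h1

/-- first probability -/
lemma cond_1' : ((pr j ^ 2 : ℕ) : ℝ) * (2 * 4 ^ ((Nat.sqrt j) ^ 2)) /
    ((2 : ℝ) ^ (100 * 2 ^ kk j)) ^ mu2 j ≤ (1 / 2) ^ (j + 3) := by
  have h1 : ((pr j ^ 2 : ℕ) : ℝ) ≤ 2 ^ (2 * j + 10) := by
    have : pr j ^ 2 ≤ 2 ^ (2 * j + 10) := by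
      calc pr j ^ 2 ≤ (2 ^ (j + 5)) ^ 2 := Nat.pow_le_pow_left (pr_le j) 2
        _ = 2 ^ (2 * j + 10) := by rw [← pow_mul]; congr 1; ring
    exact_mod_cast this
  have h2 : (2 * 4 ^ ((Nat.sqrt j) ^ 2) : ℝ) ≤ 2 ^ (2 * j + 1) := by
    have h3 : (Nat.sqrt j) ^ 2 ≤ j := Nat.sqrt_le' j
    calc (2 * 4 ^ ((Nat.sqrt j) ^ 2) : ℝ) ≤ 2 * 4 ^ j := by gcongr; norm_num
      _ = 2 ^ (2 * j + 1) := by
          rw [pow_add, pow_mul]
          norm_num
          ring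
  have h3 : (2 : ℝ) ^ (5 * j + 14) ≤ ((2 : ℝ) ^ (100 * 2 ^ kk j)) ^ mu2 j := by
    rw [← pow_mul]
    exact pow_le_pow_right₀ (by norm_num) (mu2_theta hj)
  calc ((pr j ^ 2 : ℕ) : ℝ) * (2 * 4 ^ ((Nat.sqrt j) ^ 2)) / ((2 : ℝ) ^ (100 * 2 ^ kk j)) ^ mu2 j
      ≤ 2 ^ (2 * j + 10) * 2 ^ (2 * j + 1) / 2 ^ (5 * j + 14) := by gcongr
    _ = (1 / 2) ^ (j + 3) := by
        rw [one_div, inv_pow, div_eq_iff (by positivity), ← pow_add]
        rw [show 5 * j + 14 = (2 * j + 10 + (2 * j + 1)) + (j + 3) by ring, pow_add]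
        field_simp
        rw [← pow_add, ← pow_add]

lemma L2_mul : L2 j * j ≤ 64 * pr j := Nat.div_mul_le_self _ _

lemma L2_pos : 1 ≤ L2 j := by
  unfold L2
  have h1 := pr_gt j
  have h2 : j < 2 ^ j := Nat.lt_two_pow_self
  have h3 : 2 ^ (j + 4) = 16 * 2 ^ j := by ring
  have h4 := j_ge hj
  rw [Nat.one_le_div_iff (by omega)]
  omega

lemma L2_lt : 64 * pr j < 2 * L2 j * j := by
  have h1 := L2_pos hj
  have h4 := j_ge hj
  have h2 : 64 * pr j < (L2 j + 1) * j := by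
    unfold L2
    have := Nat.lt_mul_div_succ (64 * pr j) (show 0 < j by omega)
    calc 64 * pr j < j * (64 * pr j / j + 1) := this
      _ = (64 * pr j / j + 1) * j := mul_comm _ _
  calc 64 * pr j < (L2 j + 1) * j := h2
    _ ≤ (L2 j + L2 j) * j := Nat.mul_le_mul_right _ (by omega)
    _ = 2 * L2 j * j := by ring

lemma p_div_L2 : (pr j : ℝ) / L2 j ≤ j / 32 := by
  have h1 := L2_pos hj
  have h2 := L2_lt hj
  have h1' : (0 : ℝ) < L2 j := by exact_mod_cast h1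
  have h2' : (64 : ℝ) * pr j < 2 * L2 j * j := by exact_mod_cast h2
  rw [div_le_div_iff₀ h1' (by norm_num)]
  linarith

lemma exp_two_le : Real.exp 2 ≤ 8 := by
  have h4 : Real.exp 2 = (Real.exp 1) ^ 2 := by rw [← Real.exp_nat_mul]; norm_num
  rw [h4]
  calc (Real.exp 1) ^ 2 ≤ 2.7182818286 ^ 2 := by
        gcongr
        exact Real.exp_one_lt_d9.le
    _ ≤ 8 := by norm_num

/-- second probability -/
lemma cond_2' : (j : ℝ) * (((pr j ^ 2 : ℕ) * (((641 : ℕ) : ℝ) * 6) *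
      Real.exp (36 * pr j / L2 j + 1) / (1 + 1 / (2 * (L2 j : ℝ))) ^ (K1 j))) ≤ (1 / 2) ^ (j + 3) := by
  have hj34 := j_ge hj
  have hL := L2_pos hj
  have hL' : (0 : ℝ) < L2 j := by exact_mod_cast hL
  have h0 : (j : ℝ) ≤ 2 ^ j := by exact_mod_cast (Nat.lt_two_pow_self (n := j)).le
  have h1 : ((pr j ^ 2 : ℕ) : ℝ) ≤ 2 ^ (2 * j + 10) := by
    have : pr j ^ 2 ≤ 2 ^ (2 * j + 10) := by
      calc pr j ^ 2 ≤ (2 ^ (j + 5)) ^ 2 := Nat.pow_le_pow_left (pr_le j) 2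
        _ = 2 ^ (2 * j + 10) := by rw [← pow_mul]; congr 1; ring
    exact_mod_cast this
  have h2 : Real.exp (36 * pr j / L2 j + 1) ≤ 2 ^ (3 * j) := by
    have h3 := p_div_L2 hj
    have hj' : (2 : ℝ) ^ 34 ≤ j := by exact_mod_cast hj34
    have h4 : (36 * pr j / L2 j + 1 : ℝ) ≤ (j : ℕ) * 2 := by
      have : (36 * pr j / L2 j : ℝ) = 36 * (pr j / L2 j) := by ring
      rw [this]
      have h5 : (1 : ℝ) ≤ (2 : ℝ) ^ 34 / 8 := by norm_num
      linarith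
    calc Real.exp (36 * pr j / L2 j + 1) ≤ Real.exp ((j : ℕ) * 2) := Real.exp_le_exp.2 h4
      _ = (Real.exp 2) ^ j := by rw [Real.exp_nat_mul]
      _ ≤ 8 ^ j := by
          have := exp_two_le hj
          gcongr
      _ = 2 ^ (3 * j) := by rw [pow_mul]; norm_num
  have h3 : (2 : ℝ) ^ (12 * j) ≤ (1 + 1 / (2 * (L2 j : ℝ))) ^ (K1 j) := by
    have h4 : (2 * L2 j) * (12 * j) ≤ K1 j := by
      unfold K1
      have := L2_mul hj
      calc (2 * L2 j) * (12 * j) = 24 * (L2 j * j) := by ring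
        _ ≤ 24 * (64 * pr j) := Nat.mul_le_mul_left _ this
        _ = 1536 * pr j := by ring
    have hB1 : (1 : ℝ) ≤ 1 + 1 / (2 * (L2 j : ℝ)) := by
      have : (0 : ℝ) ≤ 1 / (2 * (L2 j : ℝ)) := by positivity
      linarith
    have h5 : (2 : ℝ) ≤ (1 + 1 / (2 * (L2 j : ℝ))) ^ (2 * L2 j) := by
      have h6 := one_add_mul_le_pow (a := 1 / (2 * (L2 j : ℝ))) (by
        have : (0 : ℝ) ≤ 1 / (2 * (L2 j : ℝ)) := by positivity
        linarith) (2 * L2 j)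
      have h7 : 1 + ((2 * L2 j : ℕ) : ℝ) * (1 / (2 * (L2 j : ℝ))) = 2 := by
        push_cast
        field_simp
        norm_num
      rw [h7] at h6
      exact h6
    calc (2 : ℝ) ^ (12 * j) ≤ ((1 + 1 / (2 * (L2 j : ℝ))) ^ (2 * L2 j)) ^ (12 * j) := by gcongr
      _ = (1 + 1 / (2 * (L2 j : ℝ))) ^ ((2 * L2 j) * (12 * j)) := by rw [← pow_mul]
      _ ≤ _ := pow_le_pow_right₀ hB1 h4
  have h4 : (((641 : ℕ) : ℝ) * 6) ≤ 2 ^ 12 := by norm_num
  calc (j : ℝ) * (((pr j ^ 2 : ℕ) * (((641 : ℕ) : ℝ) * 6) *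
      Real.exp (36 * pr j / L2 j + 1) / (1 + 1 / (2 * (L2 j : ℝ))) ^ (K1 j)))
      ≤ 2 ^ j * ((2 ^ (2 * j + 10) * 2 ^ 12 * 2 ^ (3 * j)) / 2 ^ (12 * j)) := by gcongr
    _ = 2 ^ (6 * j + 22) / 2 ^ (12 * j) := by
        rw [← mul_div_assoc, ← pow_add, ← pow_add, ← pow_add]
        congr 2
        ring
    _ ≤ (1 / 2) ^ (j + 3) := by
        rw [one_div, inv_pow, div_le_iff₀ (by positivity), inv_mul_eq_div, le_div_iff₀ (by positivity),
          ← pow_add]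
        exact pow_le_pow_right₀ (by norm_num) (by omega)

lemma exp_e : Real.exp ((Nat.sqrt j : ℝ) * Real.log 2) = 2 ^ (Nat.sqrt j) := by
  rw [Real.exp_nat_mul, Real.exp_log (by norm_num)]

/-- third probability -/
lemma cond_3' : ((pr j ^ 2 : ℕ) : ℝ) * (2 * 4 ^ ((Nat.sqrt j) ^ 2)) /
      Real.exp (((Nat.sqrt j : ℝ) * Real.log 2) / (72 * 641 * K1 j : ℕ)) ^ (nu j) ≤
      (1 / 2) ^ (j + 3) := by
  have hj34 := j_ge hj
  have h1 : ((pr j ^ 2 : ℕ) : ℝ) ≤ 2 ^ (2 * j + 10) := by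
    have : pr j ^ 2 ≤ 2 ^ (2 * j + 10) := by
      calc pr j ^ 2 ≤ (2 ^ (j + 5)) ^ 2 := Nat.pow_le_pow_left (pr_le j) 2
        _ = 2 ^ (2 * j + 10) := by rw [← pow_mul]; congr 1; ring
    exact_mod_cast this
  have h2 : (2 * 4 ^ ((Nat.sqrt j) ^ 2) : ℝ) ≤ 2 ^ (2 * j + 1) := by
    have h3 : (Nat.sqrt j) ^ 2 ≤ j := Nat.sqrt_le' j
    calc (2 * 4 ^ ((Nat.sqrt j) ^ 2) : ℝ) ≤ 2 * 4 ^ j := by gcongr; norm_num
      _ = 2 ^ (2 * j + 1) := by
          rw [pow_add, pow_mul]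
          norm_num
          ring
  have hY : (0 : ℝ) < (72 * 641 * K1 j : ℕ) := by
    have : 0 < 72 * 641 * K1 j := by
      unfold K1
      have := pr_pos j
      positivity
    exact_mod_cast this
  have h3 : (2 : ℝ) ^ (7 * j) ≤
      Real.exp (((Nat.sqrt j : ℝ) * Real.log 2) / (72 * 641 * K1 j : ℕ)) ^ (nu j) := by
    have e1 : Real.exp (((Nat.sqrt j : ℝ) * Real.log 2) / (72 * 641 * K1 j : ℕ)) ^ (nu j) =
        (2 ^ (Nat.sqrt j)) ^ (7 * (Nat.sqrt j + 2)) := by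
      rw [← exp_e hj, ← Real.exp_nat_mul, ← Real.exp_nat_mul]
      congr 1
      unfold nu
      rw [Nat.cast_mul (72 * 641 * K1 j)]
      field_simp
    rw [e1, ← pow_mul]
    refine pow_le_pow_right₀ (by norm_num) ?_
    have h4 : j ≤ Nat.sqrt j * (Nat.sqrt j + 2) := by
      have := Nat.lt_succ_sqrt j
      have h5 : (Nat.sqrt j).succ * (Nat.sqrt j).succ = Nat.sqrt j * (Nat.sqrt j + 2) + 1 := by
        rw [Nat.succ_eq_add_one]; ring
      omega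
    calc 7 * j ≤ 7 * (Nat.sqrt j * (Nat.sqrt j + 2)) := Nat.mul_le_mul_left _ h4
      _ = Nat.sqrt j * (7 * (Nat.sqrt j + 2)) := by ring
  calc _ ≤ (2 : ℝ) ^ (2 * j + 10) * 2 ^ (2 * j + 1) / 2 ^ (7 * j) := by gcongr
    _ ≤ (1 / 2) ^ (j + 3) := by
        rw [one_div, inv_pow, div_le_iff₀ (by positivity), inv_mul_eq_div, le_div_iff₀ (by positivity),
          ← pow_add, ← pow_add]
        exact pow_le_pow_right₀ (by norm_num) (by omega)

lemma cond_G3 : 4 * (((641 : ℕ) : ℝ) + 2) * Real.exp ((Nat.sqrt j : ℝ) * Real.log 2) ≤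
    4 ^ (Nat.sqrt j) := by
  rw [exp_e hj]
  have h1 := sqrt_ge hj
  have h2 : (4 : ℝ) * (((641 : ℕ) : ℝ) + 2) ≤ 2 ^ (Nat.sqrt j) := by
    calc (4 : ℝ) * (((641 : ℕ) : ℝ) + 2) ≤ 2 ^ 12 := by norm_num
      _ ≤ 2 ^ (Nat.sqrt j) := pow_le_pow_right₀ (by norm_num) (by omega)
  calc 4 * (((641 : ℕ) : ℝ) + 2) * 2 ^ (Nat.sqrt j) ≤ 2 ^ (Nat.sqrt j) * 2 ^ (Nat.sqrt j) := by
        gcongr
    _ = 4 ^ (Nat.sqrt j) := by rw [← mul_pow]; norm_num

omit hj in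
lemma aux4 {s : ℕ} (h : 2 ≤ s) : 6 + 496226304 * (s + 2) ≤ 1073741824 * s := by omega

/-- fourth probability -/
lemma cond_4' : (((2 * (641 + 1) * MM j : ℕ) : ℝ) * (((641 : ℕ) : ℝ) * 6) *
    Real.exp (((bb j : ℕ) : ℝ) * (6 * pr j + nu j : ℕ) / pr j + 6) / ((bb j : ℕ) : ℝ) ^ Kn j) ≤
      (1 / 2) ^ (j + 3) := by
  have hp : (0 : ℝ) < pr j := by exact_mod_cast pr_pos j
  have h1 : (((2 * (641 + 1) * MM j : ℕ) : ℝ) * (((641 : ℕ) : ℝ) * 6)) ≤ 2 ^ (4 * j + 43) := by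
    have h2 : (2 * (641 + 1) * MM j) * (641 * 6) ≤ 2 ^ (4 * j + 43) := by
      calc (2 * (641 + 1) * MM j) * (641 * 6) ≤ (2 * (641 + 1) * 16 ^ (j + 5)) * (641 * 6) := by
            gcongr
            exact MM_up j
        _ = 4938264 * 16 ^ (j + 5) := by ring
        _ ≤ 2 ^ 23 * 16 ^ (j + 5) := by gcongr; norm_num
        _ = 2 ^ (4 * j + 43) := by
            rw [show (16 : ℕ) = 2 ^ 4 by norm_num, ← pow_mul, ← pow_add]
            congr 1
            ring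
    exact_mod_cast h2
  have h2 : Real.exp (((bb j : ℕ) : ℝ) * (6 * pr j + nu j : ℕ) / pr j + 6) ≤ 2 ^ (j + 8) := by
    set s := Nat.sqrt j with hs
    have e1 : ((bb j : ℕ) : ℝ) * (6 * pr j + nu j : ℕ) / pr j + 6 =
        ((bb j * (6 + 496226304 * (s + 2)) + 6 : ℕ) : ℝ) * 1 := by
      have e0 : 6 * pr j + nu j = pr j * (6 + 496226304 * (s + 2)) := by
        unfold nu K1
        rw [← hs]
        ring
      rw [e0, Nat.cast_mul (pr j), mul_one]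
      push_cast
      field_simp
    have e2 : 2 * (bb j * (6 + 496226304 * (s + 2)) + 6) ≤ j + 8 := by
      have f1 := bb_sqrt hj
      have f2 := sqrt_ge hj
      rw [← hs] at f1 f2
      have f3 : s * s ≤ j := Nat.sqrt_le j
      have f4 : 6 + 496226304 * (s + 2) ≤ 1073741824 * s :=
        aux4 ((by norm_num : 2 ≤ 2 ^ 34).trans f2)
      have f5 : bb j * (6 + 496226304 * (s + 2)) ≤ bb j * (1073741824 * s) := Nat.mul_le_mul_left _ f4
      have f6 : 4 * (bb j * (1073741824 * s)) ≤ s * s := by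
        have f1' : bb j * 4294967296 ≤ s := by norm_num at f1; exact f1
        calc 4 * (bb j * (1073741824 * s)) = (bb j * 4294967296) * s := by ring
          _ ≤ s * s := Nat.mul_le_mul_right _ f1'
      have f7 := j_ge hj
      omega
    rw [e1, Real.exp_nat_mul]
    calc (Real.exp 1) ^ (bb j * (6 + 496226304 * (s + 2)) + 6)
        ≤ 4 ^ (bb j * (6 + 496226304 * (s + 2)) + 6) := by
          have : Real.exp 1 ≤ 4 := by
            have := Real.exp_one_lt_d9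
            linarith
          gcongr
      _ = 2 ^ (2 * (bb j * (6 + 496226304 * (s + 2)) + 6)) := by rw [pow_mul]; norm_num
      _ ≤ 2 ^ (j + 8) := pow_le_pow_right₀ (by norm_num) e2
  have h3 : (2 : ℝ) ^ (6 * j + 54) ≤ ((bb j : ℕ) : ℝ) ^ Kn j := by
    have : 2 ^ (6 * j + 54) ≤ (bb j) ^ Kn j := by
      unfold bb
      rw [← pow_mul]
      exact Nat.pow_le_pow_right (by norm_num) (Kn_eta hj)
    exact_mod_cast this
  calc _ ≤ (2 : ℝ) ^ (4 * j + 43) * 2 ^ (j + 8) / 2 ^ (6 * j + 54) := by gcongr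
    _ = (1 / 2) ^ (j + 3) := by
        rw [one_div, inv_pow, div_eq_iff (by positivity), ← pow_add]
        rw [show 6 * j + 54 = (4 * j + 43 + (j + 8)) + (j + 3) by ring, pow_add]
        field_simp
        rw [← pow_add, ← pow_add]

lemma le_two_pow_div : ∀ m : ℕ, 8 ≤ m → 16 * (m + 1) ≤ 2 ^ m := by
  intro m hm
  induction m, hm using Nat.le_induction with
  | base => norm_num
  | succ m hm ih => rw [pow_succ]; omega

/-- the condition of the spread lemma -/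
lemma cond_sp (j0 : ℕ) : ∀ i ∈ Irel 641 j0 j,
    864 * (1 + 1 / (2 * (L2 j : ℝ))) ^ (6 * pr j) * (pr j : ℝ) ^ 2 ≤ (L2 j : ℝ) ^ 2 * pr i := by
  intro i hi
  have hj34 := j_ge hj
  have hL := L2_pos hj
  have hL' : (0 : ℝ) < L2 j := by exact_mod_cast hL
  set m := j / 16 with hm
  have hm1 : 16 * m ≤ j := Nat.mul_div_le j 16
  have hm2 : j < 16 * (m + 1) := by omega
  have hm8 : 8 ≤ m := by omega
  have hjm : j ≤ 2 ^ m := hm2.le.trans (le_two_pow_div hj m hm8)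
  have hq := (mem_filter.1 hi).2
  -- lower bound for `pr i`
  have hP : 2 ^ (5 * m + 3) ≤ pr i := by
    by_contra hcon
    push Not at hcon
    have h1 : pr i ^ 2 * pr i ^ 2 ≤ (2 ^ (5 * m + 3)) ^ 2 * (2 ^ (5 * m + 3)) ^ 2 :=
      Nat.mul_le_mul (Nat.pow_le_pow_left hcon.le 2) (Nat.pow_le_pow_left hcon.le 2)
    have h2 : (2 ^ (j + 4)) ^ 2 ≤ pr j ^ 2 := Nat.pow_le_pow_left (pr_gt j).le 2
    have h3 : 2 ^ (32 * m + 8) ≤ (2 ^ (j + 4)) ^ 2 := by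
      rw [← pow_mul]
      exact Nat.pow_le_pow_right (by norm_num) (by omega)
    have h4 : (641 + 1) * (pr i ^ 2 * pr i ^ 2) ≤ 2 ^ (20 * m + 22) := by
      calc (641 + 1) * (pr i ^ 2 * pr i ^ 2) ≤ 2 ^ 10 * ((2 ^ (5 * m + 3)) ^ 2 * (2 ^ (5 * m + 3)) ^ 2) :=
            Nat.mul_le_mul (by norm_num) h1
        _ = 2 ^ (20 * m + 22) := by
            rw [← pow_mul, ← pow_add, ← pow_add]
            congr 1
            ring
    have h5 : 2 ^ (20 * m + 22) < 2 ^ (32 * m + 8) := Nat.pow_lt_pow_right (by norm_num) (by omega)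
    omega
  have hP' : (2 : ℝ) ^ (5 * m + 3) ≤ pr i := by exact_mod_cast hP
  have h1 : (1 + 1 / (2 * (L2 j : ℝ))) ^ (6 * pr j) ≤ 8 ^ (m + 1) := by
    have h2 := p_div_L2 hj
    have h3 : (1 + 1 / (2 * (L2 j : ℝ))) ≤ Real.exp (1 / (2 * (L2 j : ℝ))) := by
      rw [add_comm]
      exact Real.add_one_le_exp _
    calc (1 + 1 / (2 * (L2 j : ℝ))) ^ (6 * pr j) ≤ (Real.exp (1 / (2 * (L2 j : ℝ)))) ^ (6 * pr j) := by
          gcongr
      _ = Real.exp (3 * (pr j / L2 j)) := by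
          rw [← Real.exp_nat_mul]
          congr 1
          push_cast
          field_simp
          ring
      _ ≤ Real.exp ((m + 1 : ℕ) * 2) := by
          apply Real.exp_le_exp.2
          have h4 : (j : ℝ) ≤ 16 * ((m : ℝ) + 1) := by exact_mod_cast hm2.le
          push_cast
          have h5 : (0 : ℝ) ≤ m := by positivity
          linarith
      _ = (Real.exp 2) ^ (m + 1) := by rw [Real.exp_nat_mul]
      _ ≤ 8 ^ (m + 1) := by
          have := exp_two_le hj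
          gcongr
  have h2 : (pr j : ℝ) ≤ L2 j * (2 ^ m / 32) := by
    have h3 := p_div_L2 hj
    rw [div_le_iff₀ hL'] at h3
    have h4 : (j : ℝ) ≤ 2 ^ m := by exact_mod_cast hjm
    calc (pr j : ℝ) ≤ j / 32 * L2 j := h3
      _ ≤ 2 ^ m / 32 * L2 j := by gcongr
      _ = _ := by ring
  calc 864 * (1 + 1 / (2 * (L2 j : ℝ))) ^ (6 * pr j) * (pr j : ℝ) ^ 2
      ≤ 864 * 8 ^ (m + 1) * (L2 j * (2 ^ m / 32)) ^ 2 := by gcongr
    _ = (L2 j : ℝ) ^ 2 * (864 * 8 / 1024 * 2 ^ (5 * m)) := by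
        have e1 : (8 : ℝ) ^ (m + 1) = 8 * 2 ^ (3 * m) := by
          rw [pow_succ, pow_mul]
          norm_num
          ring
        have e2 : ((2 : ℝ) ^ m) ^ 2 = 2 ^ (2 * m) := by rw [← pow_mul, mul_comm]
        have e3 : (2 : ℝ) ^ (5 * m) = 2 ^ (3 * m) * 2 ^ (2 * m) := by rw [← pow_add]; congr 1; ring
        rw [mul_pow, div_pow, e2, e1, e3]
        ring
    _ ≤ (L2 j : ℝ) ^ 2 * 2 ^ (5 * m + 3) := by
        gcongr
        rw [pow_add]
        have : (0 : ℝ) < 2 ^ (5 * m) := by positivity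
        nlinarith
    _ ≤ (L2 j : ℝ) ^ 2 * pr i := by gcongr

end

/-- good parameters exist -/
theorem exists_params : ∃ (j0 : ℕ) (x : ∀ i, Om i), (∀ j, j0 ≤ j → 21 ≤ Nat.log 2 (Nat.log 2 j)) ∧
    ∀ j, j0 ≤ j → ¬ BadCross (cvs j) (SS 641 j0 j x) 641 (2 * (641 + 1) * MM j) (Kn j) (x j).1
      (fun ι => ((x j).2 ι : ℕ)) := by
  obtain ⟨j0, hj0⟩ := exists_large 21
  obtain ⟨x, hx⟩ := exists_good 641 j0 (by norm_num) mu2 nu Kn K1 (fun j => Nat.sqrt j) L2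
    (fun j => Nat.sqrt j)
    (fun j => 2 * (641 + 1) * MM j) (fun j => (2 : ℝ) ^ (100 * 2 ^ kk j)) (fun j => ((bb j : ℕ) : ℝ))
    (fun j => (Nat.sqrt j : ℝ) * Real.log 2)
    (fun j => one_le_pow₀ (by norm_num))
    (fun j => by
      have : 1 ≤ bb j := by unfold bb; exact Nat.one_le_two_pow
      exact_mod_cast this)
    (fun j => by
      have := Real.log_pos (by norm_num : (1 : ℝ) < 2)
      positivity)
    (fun j hj => L2_pos (hj0 j hj))
    (fun j hj => cond_G (hj0 j hj)) (fun j hj => cond_B' (hj0 j hj))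
    (fun j hj => cond_sp (hj0 j hj) j0)
    (fun j hj => by unfold K1; omega)
    (fun j hj => cond_G3 (hj0 j hj))
    (fun j hj => cond_1' (hj0 j hj)) (fun j hj => cond_2' (hj0 j hj))
    (fun j hj => cond_3' (hj0 j hj)) (fun j hj => cond_4' (hj0 j hj))
  exact ⟨j0, x, hj0, hx⟩

end Pool.Agent.N885.ET
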