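import Pool.Agent.R447.SB.Asym
import Pool.Agent.N885.ET.Params

/-!
The basis, its counting function and its representation function, asymptotically.
-/

namespace Pool.Agent.N885.ET

open Finset Filter Pool.Agent.R447.SB

/-- `log log n` -/
noncomputable def ll (n : ℕ) : ℝ := Real.log (Real.log n)

lemma kk_lower2 {m : ℕ} (h : 20 ≤ Nat.log 2 (Nat.log 2 m)) :
    (Nat.log 2 m : ℝ) / 2 ^ 21 ≤ ((2 ^ kk m : ℕ) : ℝ) := by
  have h1 : Nat.log 2 m < 2 ^ (Nat.log 2 (Nat.log 2 m) + 1) :=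
    Nat.lt_pow_succ_log_self (by norm_num) _
  have h2 : Nat.log 2 (Nat.log 2 m) + 1 = kk m + 21 := by unfold kk; omega
  rw [h2, pow_add] at h1
  rw [div_le_iff₀ (by positivity)]
  exact_mod_cast h1.le

lemma pow_lower : ∀ᶠ n : ℕ in atTop, ll n / 2 ^ 23 ≤ ((2 ^ kk (Nat.log 16 n - 7) : ℕ) : ℝ) := by
  filter_upwards [tendsto_log_nat.eventually (eventually_ge_atTop (100 : ℝ)),
    tendsto_ll.eventually (eventually_ge_atTop (4 : ℝ)), kk_lower,
    tendsto_lll.eventually (eventually_ge_atTop (400 : ℝ)), eventually_ge_atTop 1] with n h1 h2 h3 h3' hn1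
  set N := Nat.log 16 n with hN
  have hn0 : (0 : ℝ) < n := by exact_mod_cast hn1
  have hNlow : Real.log n / 3 - 1 ≤ (N : ℝ) := by
    have e1 : n < 16 ^ (N + 1) := Nat.lt_pow_succ_log_self (by norm_num) n
    have e2 : Real.log n ≤ ((N + 1 : ℕ) : ℝ) * Real.log 16 := by
      rw [← Real.log_pow]
      refine Real.log_le_log hn0 ?_
      exact_mod_cast e1.le
    have e3 : Real.log 16 ≤ 3 := by
      have : Real.log 16 = 4 * Real.log 2 := by
        rw [show (16 : ℝ) = 2 ^ 4 by norm_num, Real.log_pow]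
        norm_num
      rw [this]
      have := Real.log_two_lt_d9
      linarith
    have e4 : ((N + 1 : ℕ) : ℝ) * Real.log 16 ≤ ((N + 1 : ℕ) : ℝ) * 3 :=
      mul_le_mul_of_nonneg_left e3 (by positivity)
    push_cast at e2 e4
    linarith
  have hN7 : 7 ≤ N := by
    have : (7 : ℝ) ≤ N := by linarith
    exact_mod_cast this
  obtain ⟨m, hm⟩ : ∃ m, N = m + 7 := ⟨N - 7, by omega⟩
  have hNm : N - 7 = m := by omega
  rw [hNm] at h3 ⊢
  have hmlow : Real.log n / 3 - 8 ≤ (m : ℝ) := by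
    have : (N : ℝ) = m + 7 := by rw [hm]; push_cast; ring
    linarith
  have hm1 : 1 ≤ m := by
    have : (1 : ℝ) ≤ m := by linarith
    exact_mod_cast this
  have hlogm : Real.log (Real.log n) / 2 ≤ Real.log m := by
    refine half_log (by linarith) ?_
    have e1 : Real.log n ≤ (Real.log n / 3 - 8) ^ 2 := by nlinarith
    have e2 : (Real.log n / 3 - 8) ^ 2 ≤ (m : ℝ) ^ 2 := by
      refine pow_le_pow_left₀ (by linarith) hmlow 2
    linarith
  have hl1 := natlog_lower hm1
  have hkk : 20 ≤ Nat.log 2 (Nat.log 2 m) := by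
    by_contra hcon
    push Not at hcon
    have : kk m = 0 := by unfold kk; omega
    rw [this] at h3
    simp only [Nat.cast_zero] at h3
    linarith
  have h5 := kk_lower2 hkk
  refine le_trans ?_ h5
  unfold ll
  have h6 : Real.log (Real.log n) / 4 ≤ (Nat.log 2 m : ℝ) := by
    have : (4 : ℝ) ≤ Real.log (Real.log n) := h2
    linarith
  rw [div_le_div_iff₀ (by positivity) (by positivity)]
  have e : (2 : ℝ) ^ 23 = 4 * 2 ^ 21 := by norm_num
  rw [e]
  have : Real.log (Real.log n) ≤ 4 * (Nat.log 2 m : ℝ) := by linarith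
  nlinarith

lemma scaleSet_card (i : ℕ) (y : Om i) : (AS 641 i y).card ≤ 23629824 * 4 ^ i := by
  unfold AS scaleSet
  have h1 : ((univ : Finset (Idx (pr i)))).card = 6 * pr i := by rw [card_univ, card_idx]
  have h2 : pr i * pr i ≤ 2 ^ (i + 5) * 2 ^ (i + 5) := Nat.mul_le_mul (pr_le i) (pr_le i)
  calc _ ≤ ((Ico 1 641) ×ˢ ((univ : Finset (Idx (pr i))) ×ˢ (univ : Finset (Idx (pr i))))).card :=
        card_image_le
    _ = 640 * (6 * pr i * (6 * pr i)) := by
        rw [card_product, card_product, h1]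
        simp
    _ = 23040 * (pr i * pr i) := by ring
    _ ≤ 23040 * (2 ^ (i + 5) * 2 ^ (i + 5)) := Nat.mul_le_mul_left _ h2
    _ = 23592960 * 4 ^ i := by
        rw [show (4 : ℕ) = 2 ^ 2 by norm_num, ← pow_mul]
        ring
    _ ≤ _ := Nat.mul_le_mul_right _ (by norm_num)

lemma geom4 (m : ℕ) : ∑ i ∈ range m, 4 ^ i ≤ 4 ^ m := by
  induction m with
  | zero => simp
  | succ m ih => rw [sum_range_succ, pow_succ]; omega

lemma thin (j0 : ℕ) (x : ∀ i, Om i) (X : ℕ) :
    ((bas 641 j0 x ∩ Set.Icc 1 X).ncard : ℝ) ≤ 23629824 * Real.sqrt X := by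
  classical
  rcases Nat.eq_zero_or_pos X with h0 | hX
  · subst h0
    simp
  set N := Nat.log 16 X with hN
  have hsub : bas 641 j0 x ∩ Set.Icc 1 X ⊆ (((range N).biUnion (fun i => AS 641 i (x i)) :
      Finset ℕ) : Set ℕ) := by
    rintro a ⟨⟨i, hi, ha⟩, ha1, haX⟩
    rw [mem_coe, mem_biUnion]
    refine ⟨i, ?_, ha⟩
    rw [mem_range]
    have h1 := AS_lower ha
    have h2 := MM_ge i
    have h3 : i + 4 ≤ N := by
      rw [hN, Nat.le_log_iff_pow_le (by norm_num) (by omega)]
      omega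
    omega
  have h1 : (bas 641 j0 x ∩ Set.Icc 1 X).ncard ≤ 23629824 * 4 ^ N := by
    calc _ ≤ ((((range N).biUnion (fun i => AS 641 i (x i)) : Finset ℕ) : Set ℕ)).ncard :=
          Set.ncard_le_ncard hsub (finite_toSet _)
      _ = ((range N).biUnion (fun i => AS 641 i (x i))).card := Set.ncard_coe_finset _
      _ ≤ ∑ i ∈ range N, (AS 641 i (x i)).card := card_biUnion_le
      _ ≤ ∑ i ∈ range N, 23629824 * 4 ^ i := sum_le_sum fun i _ => scaleSet_card i _
      _ = 23629824 * ∑ i ∈ range N, 4 ^ i := by rw [mul_sum]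
      _ ≤ 23629824 * 4 ^ N := Nat.mul_le_mul_left _ (geom4 N)
  have h2 : ((4 ^ N : ℕ) : ℝ) ≤ Real.sqrt X := by
    apply Real.le_sqrt_of_sq_le
    have h3 : 16 ^ N ≤ X := Nat.pow_log_le_self 16 (by omega)
    have h4 : (4 ^ N) ^ 2 = 16 ^ N := by rw [← pow_mul, mul_comm, pow_mul]; norm_num
    rw [← h4] at h3
    exact_mod_cast h3
  calc ((bas 641 j0 x ∩ Set.Icc 1 X).ncard : ℝ) ≤ ((23629824 * 4 ^ N : ℕ) : ℝ) := by exact_mod_cast h1
    _ = 23629824 * ((4 ^ N : ℕ) : ℝ) := by push_cast; ring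
    _ ≤ _ := by gcongr

/-- **Main theorem, technical form.** -/
theorem main : ∃ A : Set ℕ, (∀ᶠ n in atTop, ∃ a ∈ A, ∃ b ∈ A, a + b = n) ∧
    (∃ C : ℝ, ∀ X : ℕ, ((A ∩ Set.Icc 1 X).ncard : ℝ) ≤ C * Real.sqrt X) ∧
    ∃ C : ℝ, ∀ᶠ n : ℕ in atTop, (rep A n : ℝ) ≤ C * (Real.log n / ll n) := by
  obtain ⟨j0, x, hj0, hx⟩ := exists_params
  refine ⟨bas 641 j0 x, ?_, ⟨23629824, fun X => thin j0 x X⟩,
    4 * (641 * 641 * 144 * 144 + 12 * 641 * (60 * 2 ^ 23 + 1)), ?_⟩
  · filter_upwards [eventually_ge_atTop (5 * MM j0)] with n hn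
    exact bas_cover j0 x n hn
  · filter_upwards [tendsto_log_nat.eventually (eventually_ge_atTop (100 : ℝ)),
      tendsto_ll.eventually (eventually_ge_atTop (100 : ℝ)), eventually_ge_atTop 1,
      pow_lower] with n h1 h2 hn1 hkk
    set N := Nat.log 16 n with hN
    set k := 2 ^ kk (N - 7) with hk
    have hkpos' : 0 < k := by rw [hk]; positivity
    have hkpos : (0 : ℝ) < k := by exact_mod_cast hkpos'
    have hrep := rep_bound (R := 641) (j0 := j0) le_rfl (K := Kn)
      (N0 := fun j => 2 * (641 + 1) * MM j) (x := x) (fun j => rfl) hx n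
      ((6 * N + 54) / k + 1) (by
        intro j _ h4 h5
        unfold Kn
        have h6 : k ≤ 2 ^ kk j := Nat.pow_le_pow_right (by norm_num) (kk_mono (by omega))
        have h7 : (6 * j + 54) / 2 ^ kk j ≤ (6 * N + 54) / k :=
          Nat.div_le_div (by omega) h6 (by omega)
        omega)
    have hn0 : (0 : ℝ) < n := by exact_mod_cast hn1
    have hNup : (N : ℝ) ≤ Real.log n := by
      have e1 : 16 ^ N ≤ n := Nat.pow_log_le_self 16 (by omega)
      have e2 : ((N : ℕ) : ℝ) * Real.log 16 ≤ Real.log n := by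
        rw [← Real.log_pow]
        refine Real.log_le_log (by positivity) ?_
        exact_mod_cast e1
      have e3 : 1 ≤ Real.log 16 := by
        have : Real.log 16 = 4 * Real.log 2 := by
          rw [show (16 : ℝ) = 2 ^ 4 by norm_num, Real.log_pow]
          norm_num
        rw [this]
        have := Real.log_two_gt_d9
        linarith
      have e4 : (N : ℝ) * 1 ≤ (N : ℝ) * Real.log 16 := mul_le_mul_of_nonneg_left e3 (by positivity)
      linarith
    have hll : 0 < ll n := by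
      unfold ll
      have : (100 : ℝ) ≤ Real.log (Real.log n) := h2
      linarith
    have hratio : 1 ≤ Real.log n / ll n := by
      rw [one_le_div hll]
      unfold ll
      exact (Real.log_le_sub_one_of_pos (by linarith)).trans (by linarith)
    have hdiv : (((6 * N + 54) / k + 1 : ℕ) : ℝ) ≤ (60 * 2 ^ 23 + 1) * (Real.log n / ll n) := by
      have e1 : (((6 * N + 54) / k : ℕ) : ℝ) ≤ ((6 * N + 54 : ℕ) : ℝ) / k := Nat.cast_div_le
      have e2 : ((6 * N + 54 : ℕ) : ℝ) / k ≤ (60 * Real.log n) / (ll n / 2 ^ 23) := by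
        refine div_le_div₀ (by positivity) ?_ (by positivity) hkk
        push_cast
        linarith
      have e3 : (60 * Real.log n) / (ll n / 2 ^ 23) = 60 * 2 ^ 23 * (Real.log n / ll n) := by
        field_simp
      push_cast
      linarith
    calc (rep (bas 641 j0 x) n : ℝ)
        ≤ ((4 * (641 * 641 * 144 * 144 + 12 * 641 * ((6 * N + 54) / k + 1)) : ℕ) : ℝ) := by
          exact_mod_cast hrep
      _ = 4 * (641 * 641 * 144 * 144 + 12 * 641 * (((6 * N + 54) / k + 1 : ℕ) : ℝ)) := by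
          push_cast
          ring
      _ ≤ 4 * (641 * 641 * 144 * 144 * (Real.log n / ll n) +
          12 * 641 * ((60 * 2 ^ 23 + 1) * (Real.log n / ll n))) := by
          linarith
      _ = _ := by ring

end Pool.Agent.N885.ET
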