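import Pool.Agent.R447.SB.Hit

/-!
First and second moments of the number of hits of one block, with the actual number of candidates.
-/

namespace Pool.Agent.N885.ET

open Finset Pool.Agent.R447.SB

variable {p : ℕ} (cv : Curve p)

/-- elements of `S` which can be hit by a block at the place `T` -/
def cand (p : ℕ) (S : Finset ℕ) (T n : ℕ) : Finset ℕ :=
  S.filter (fun a => a + T ≡ n [MOD p ^ 2])

lemma hits_eq (S : Finset ℕ) (T n : ℕ) (c : Fin 3 × Bool) (u : ℕ) :
    hits cv S T n c u = hits cv (cand p S T n) T n c u := by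
  classical
  unfold hits cand
  congr 1
  ext a
  simp only [mem_filter, and_assoc]
  refine and_congr_right fun _ => ⟨fun h => ⟨?_, h⟩, fun h => h.2⟩
  obtain ⟨x, hx⟩ := h
  rw [← hx, ← add_assoc]
  exact (Nat.modEq_iff_dvd' (by omega)).2 (by simp)

lemma hits_le (S : Finset ℕ) (T n : ℕ) (c : Fin 3 × Bool) (u : ℕ) :
    hits cv S T n c u ≤ (cand p S T n).card := by
  rw [hits_eq]
  unfold hits
  exact card_filter_le _ _

/-- first moment -/
lemma hits_sum1 (hp : 0 < p) (S : Finset ℕ) (T n : ℕ) (c : Fin 3 × Bool) :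
    ∑ u ∈ range (p ^ 2), hits cv S T n c u ≤ (cand p S T n).card * p := by
  classical
  set m := p ^ 2 with hm
  have hm0 : 0 < m := by positivity
  set hit : ℕ → ℕ → Prop := fun a u => ∃ x : Fin p, a + (T + m * ((cv.v c x + u) % m)) = n
    with hhit
  have hY : ∀ u, hits cv S T n c u = ((cand p S T n).filter (fun a => hit a u)).card := by
    intro u
    rw [hits_eq]
    rfl
  have hone : ∀ a (x : Fin p), ((range m).filter
      (fun u => a + (T + m * ((cv.v c x + u) % m)) = n)).card ≤ 1 := by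
    intro a x
    rw [card_le_one]
    intro u hu u' hu'
    simp only [mem_filter, mem_range] at hu hu'
    apply shift_inj hu.1 hu'.1 (a := cv.v c x)
    have : m * ((cv.v c x + u) % m) = m * ((cv.v c x + u') % m) := by omega
    exact Nat.eq_of_mul_eq_mul_left hm0 this
  have hfirst : ∀ a, ((range m).filter (fun u => hit a u)).card ≤ p := by
    intro a
    have hsub : (range m).filter (fun u => hit a u) ⊆
        (univ : Finset (Fin p)).biUnion (fun x => (range m).filter
          (fun u => a + (T + m * ((cv.v c x + u) % m)) = n)) := by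
      intro u hu
      simp only [mem_filter, hhit] at hu
      obtain ⟨hu1, x, hx⟩ := hu
      rw [mem_biUnion]
      exact ⟨x, mem_univ _, by simp only [mem_filter]; exact ⟨hu1, hx⟩⟩
    refine (card_le_card hsub).trans (card_biUnion_le.trans ?_)
    calc ∑ x : Fin p, _ ≤ ∑ x : Fin p, 1 := sum_le_sum fun x _ => hone a x
      _ = p := by simp
  have h1 : ∑ u ∈ range m, hits cv S T n c u =
      ∑ a ∈ cand p S T n, ((range m).filter (fun u => hit a u)).card := by
    simp_rw [hY, card_filter]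
    rw [sum_comm]
  rw [h1]
  calc ∑ a ∈ cand p S T n, ((range m).filter (fun u => hit a u)).card ≤ ∑ a ∈ cand p S T n, p :=
        sum_le_sum fun a _ => hfirst a
    _ = (cand p S T n).card * p := by rw [sum_const, smul_eq_mul]

/-- second moment -/
lemma hits_sum2 (hp : 0 < p) (S : Finset ℕ) (T n : ℕ) (c : Fin 3 × Bool) :
    ∑ u ∈ range (p ^ 2), hits cv S T n c u * (hits cv S T n c u - 1) ≤
      4 * (cand p S T n).card ^ 2 := by
  classical
  set m := p ^ 2 with hm
  have hm0 : 0 < m := by positivity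
  set hit : ℕ → ℕ → Prop := fun a u => ∃ x : Fin p, a + (T + m * ((cv.v c x + u) % m)) = n
    with hhit
  set S' := cand p S T n with hS'
  have hY : ∀ u, hits cv S T n c u = (S'.filter (fun a => hit a u)).card := by
    intro u
    rw [hits_eq]
    rfl
  have hsecond : ∀ a a', a ≠ a' → ((range m).filter (fun u => hit a u ∧ hit a' u)).card ≤ 4 := by
    intro a a' haa
    by_cases hne : ((range m).filter (fun u => hit a u ∧ hit a' u)).Nonempty
    · obtain ⟨u0, hu0⟩ := hne
      simp only [mem_filter, hhit] at hu0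
      obtain ⟨hu0m, ⟨x0, hx0⟩, ⟨x0', hx0'⟩⟩ := hu0
      set z := (cv.v c x0 + u0) % m with hz
      set z' := (cv.v c x0' + u0) % m with hz'
      have hzlt : z < m := Nat.mod_lt _ hm0
      have hzlt' : z' < m := Nat.mod_lt _ hm0
      have hzz : ¬ z ≡ z' [MOD m] := by
        intro h
        unfold Nat.ModEq at h
        rw [Nat.mod_eq_of_lt hzlt, Nat.mod_eq_of_lt hzlt'] at h
        rw [← h] at hx0'
        omega
      have hd := cv.diff c z z' hzz
      refine le_trans ?_ hd
      rw [← hm]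
      have hex : ∀ u ∈ (range m).filter (fun u => hit a u ∧ hit a' u), ∃ q : Fin p × Fin p,
          (cv.v c q.1 + z' ≡ cv.v c q.2 + z [MOD m]) ∧ (cv.v c q.1 + u) % m = z := by
        intro u hu
        simp only [mem_filter, hhit] at hu
        obtain ⟨_, ⟨x, hx⟩, ⟨x', hx'⟩⟩ := hu
        have e1 : (cv.v c x + u) % m = z := by
          have : m * ((cv.v c x + u) % m) = m * z := by omega
          exact Nat.eq_of_mul_eq_mul_left hm0 this
        have e2 : (cv.v c x' + u) % m = z' := by
          have : m * ((cv.v c x' + u) % m) = m * z' := by omega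
          exact Nat.eq_of_mul_eq_mul_left hm0 this
        refine ⟨(x, x'), ?_, e1⟩
        have f1 : cv.v c x + u ≡ z [MOD m] := by
          unfold Nat.ModEq
          rw [e1, Nat.mod_eq_of_lt hzlt]
        have f2 : cv.v c x' + u ≡ z' [MOD m] := by
          unfold Nat.ModEq
          rw [e2, Nat.mod_eq_of_lt hzlt']
        apply Nat.ModEq.add_right_cancel' u
        calc cv.v c x + z' + u = (cv.v c x + u) + z' := by ring
          _ ≡ z + (cv.v c x' + u) [MOD m] := Nat.ModEq.add f1 f2.symm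
          _ = cv.v c x' + z + u := by ring
      have : Nonempty (Fin p × Fin p) := ⟨(⟨0, hp⟩, ⟨0, hp⟩)⟩
      choose! f hf1 hf2 using hex
      refine card_le_card_of_injOn f ?_ ?_
      · intro u hu
        simp only [coe_filter, mem_univ, true_and, Set.mem_ofPred_eq]
        exact hf1 u hu
      · intro u hu u' hu' huu
        have e1 := hf2 u hu
        have e2 := hf2 u' hu'
        rw [← huu, ← e1] at e2
        exact (shift_inj (by have := (mem_filter.1 hu').1; exact mem_range.1 this)
          (by have := (mem_filter.1 hu).1; exact mem_range.1 this) e2).symm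
    · rw [not_nonempty_iff_eq_empty] at hne
      rw [hne]
      simp
  have h1 : ∀ u, hits cv S T n c u * (hits cv S T n c u - 1) =
      ((S'.offDiag).filter (fun q => hit q.1 u ∧ hit q.2 u)).card := by
    intro u
    have h2 : (S'.offDiag).filter (fun q => hit q.1 u ∧ hit q.2 u) =
        (S'.filter (fun a => hit a u)).offDiag := by
      ext q
      simp only [mem_filter, mem_offDiag]
      tauto
    rw [h2, offDiag_card, ← hY, Nat.mul_sub_one]
  simp_rw [h1]
  have h4 : ∑ u ∈ range m, ((S'.offDiag).filter (fun q => hit q.1 u ∧ hit q.2 u)).card =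
      ∑ q ∈ S'.offDiag, ((range m).filter (fun u => hit q.1 u ∧ hit q.2 u)).card := by
    simp_rw [card_filter]
    rw [sum_comm]
  rw [h4]
  calc ∑ q ∈ S'.offDiag, ((range m).filter (fun u => hit q.1 u ∧ hit q.2 u)).card
      ≤ ∑ q ∈ S'.offDiag, 4 := by
        refine sum_le_sum fun q hq => hsecond _ _ ?_
        exact (mem_offDiag.1 hq).2.2
    _ = S'.offDiag.card * 4 := by rw [sum_const, smul_eq_mul]
    _ ≤ S'.card ^ 2 * 4 := by
        refine Nat.mul_le_mul_right _ ?_
        rw [offDiag_card]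
        calc S'.card * S'.card - S'.card ≤ S'.card * S'.card := Nat.sub_le _ _
          _ = S'.card ^ 2 := by ring
    _ = 4 * S'.card ^ 2 := by ring

/-- exponential moment of the hits with one block -/
lemma hits_moment (hp : 0 < p) (S : Finset ℕ) (μ : ℕ) (T n : ℕ) (c : Fin 3 × Bool)
    (hμ : (cand p S T n).card ≤ μ) {B : ℝ} (hB : 1 ≤ B) :
    ∑ u ∈ range (p ^ 2), B ^ (hits cv S T n c u) ≤
      (p ^ 2 : ℝ) + B * ((cand p S T n).card * p) + B ^ μ * (4 * μ ^ 2) := by
  have h1 : (∑ u ∈ range (p ^ 2), (hits cv S T n c u : ℝ)) ≤ (cand p S T n).card * p := by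
    exact_mod_cast hits_sum1 cv hp S T n c
  have h2 : (∑ u ∈ range (p ^ 2), ((hits cv S T n c u : ℝ) * ((hits cv S T n c u : ℝ) - 1))) ≤
      4 * (μ : ℝ) ^ 2 := by
    have h3 : ∀ u, ((hits cv S T n c u : ℝ) * ((hits cv S T n c u : ℝ) - 1)) =
        ((hits cv S T n c u * (hits cv S T n c u - 1) : ℕ) : ℝ) := by
      intro u
      rcases Nat.eq_zero_or_pos (hits cv S T n c u) with h | h
      · rw [h]; simp
      · rw [Nat.cast_mul, Nat.cast_sub h]
        simp
    simp_rw [h3]
    have h4 := hits_sum2 cv hp S T n c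
    have h5 : 4 * (cand p S T n).card ^ 2 ≤ 4 * μ ^ 2 := by gcongr
    exact_mod_cast h4.trans h5
  calc ∑ u ∈ range (p ^ 2), B ^ (hits cv S T n c u)
      ≤ ∑ u ∈ range (p ^ 2), (1 + B * (hits cv S T n c u) + B ^ μ * ((hits cv S T n c u : ℝ) *
        ((hits cv S T n c u : ℝ) - 1))) :=
        sum_le_sum fun u _ => pow_le_one_add hB ((hits_le cv S T n c u).trans hμ)
    _ = (p ^ 2 : ℕ) + B * ∑ u ∈ range (p ^ 2), (hits cv S T n c u : ℝ) + B ^ μ *
        ∑ u ∈ range (p ^ 2), ((hits cv S T n c u : ℝ) * ((hits cv S T n c u : ℝ) - 1)) := by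
        rw [sum_add_distrib, sum_add_distrib, mul_sum, mul_sum]
        simp
    _ ≤ (p ^ 2 : ℝ) + B * ((cand p S T n).card * p) + B ^ μ * (4 * μ ^ 2) := by
        have e1 : ((p ^ 2 : ℕ) : ℝ) = (p ^ 2 : ℝ) := by push_cast; ring
        rw [e1]
        have e2 := mul_le_mul_of_nonneg_left h1 (by linarith : (0 : ℝ) ≤ B)
        have e3 := mul_le_mul_of_nonneg_left h2 (by positivity : (0 : ℝ) ≤ B ^ μ)
        linarith

/-- a small exponential -/
lemma pow_small {L Y M : ℕ} (hL : 1 ≤ L) (hY : Y ≤ M) :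
    (1 + 1 / (2 * (L : ℝ))) ^ Y ≤ 1 + Y / L +
      (1 + 1 / (2 * (L : ℝ))) ^ M * ((Y * (Y - 1) : ℕ) : ℝ) / L ^ 2 := by
  have hL0 : (0 : ℝ) < L := by exact_mod_cast hL
  set B : ℝ := 1 + 1 / (2 * (L : ℝ)) with hB
  have hB1 : 1 ≤ B := by rw [hB]; have : (0 : ℝ) ≤ 1 / (2 * L) := by positivity
                         linarith
  rcases Nat.lt_or_ge L Y with h | h
  · have h1 : B ^ Y ≤ B ^ M := pow_le_pow_right₀ hB1 hY
    have h2 : (1 : ℝ) ≤ ((Y * (Y - 1) : ℕ) : ℝ) / L ^ 2 := by
      rw [one_le_div (by positivity)]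
      have : L ^ 2 ≤ Y * (Y - 1) := by
        calc L ^ 2 = L * L := by ring
          _ ≤ Y * (Y - 1) := Nat.mul_le_mul (by omega) (by omega)
      exact_mod_cast this
    have h3 : B ^ M * 1 ≤ B ^ M * (((Y * (Y - 1) : ℕ) : ℝ) / L ^ 2) :=
      mul_le_mul_of_nonneg_left h2 (by positivity)
    have h4 : (0 : ℝ) ≤ (Y : ℝ) / L := by positivity
    rw [mul_div_assoc]
    linarith
  · have h1 : ∀ y : ℕ, y ≤ L → B ^ y ≤ 1 + (y : ℝ) / L := by
      intro y
      induction y with
      | zero => intro _; simp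
      | succ y ih =>
        intro hy
        have ih' := ih (by omega)
        have hyL : (y : ℝ) ≤ L := by exact_mod_cast (by omega : y ≤ L)
        rw [pow_succ]
        calc B ^ y * B ≤ (1 + (y : ℝ) / L) * B := mul_le_mul_of_nonneg_right ih' (by linarith)
          _ ≤ 1 + ((y + 1 : ℕ) : ℝ) / L := by
              rw [hB]
              push_cast
              have e : (1 + (y : ℝ) / L) * (1 + 1 / (2 * L)) =
                  1 + (y : ℝ) / L + (1 / (2 * L) + (y / L) * (1 / (2 * L))) := by ring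
              rw [e]
              have e2 : (y : ℝ) / L ≤ 1 := by rw [div_le_one hL0]; exact hyL
              have e3 : ((y : ℝ) / L) * (1 / (2 * L)) ≤ 1 * (1 / (2 * L)) :=
                mul_le_mul_of_nonneg_right e2 (by positivity)
              have e4 : (1 : ℝ) / (2 * L) + 1 * (1 / (2 * L)) = 1 / L := by
                field_simp
                ring
              have e5 : ((y : ℝ) + 1) / L = y / L + 1 / L := by ring
              rw [e5]
              linarith
    have h2 := h1 Y h
    have h3 : (0 : ℝ) ≤ B ^ M * ((Y * (Y - 1) : ℕ) : ℝ) / L ^ 2 := by positivity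
    linarith

/-- small exponential moment of the hits with one block -/
lemma hits_small (hp : 0 < p) (S : Finset ℕ) (Z M L : ℕ) (hL : 1 ≤ L) (T n : ℕ) (c : Fin 3 × Bool)
    (hZ : (cand p S T n).card ≤ Z) (hM : ∀ u, hits cv S T n c u ≤ M) :
    ∑ u ∈ range (p ^ 2), (1 + 1 / (2 * (L : ℝ))) ^ (hits cv S T n c u) ≤
      (p : ℝ) ^ 2 + (Z * p : ℝ) / L + (1 + 1 / (2 * (L : ℝ))) ^ M * (4 * Z ^ 2) / L ^ 2 := by
  have hL0 : (0 : ℝ) < L := by exact_mod_cast hL
  set B : ℝ := 1 + 1 / (2 * (L : ℝ)) with hB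
  have hB0 : 0 < B := by rw [hB]; positivity
  have h1 : (∑ u ∈ range (p ^ 2), (hits cv S T n c u : ℝ)) ≤ Z * p := by
    have := (hits_sum1 cv hp S T n c).trans (Nat.mul_le_mul_right p hZ)
    exact_mod_cast this
  have h2 : (∑ u ∈ range (p ^ 2), ((hits cv S T n c u * (hits cv S T n c u - 1) : ℕ) : ℝ)) ≤
      4 * (Z : ℝ) ^ 2 := by
    have h4 := hits_sum2 cv hp S T n c
    have h5 : 4 * (cand p S T n).card ^ 2 ≤ 4 * Z ^ 2 := by gcongr
    exact_mod_cast h4.trans h5
  calc ∑ u ∈ range (p ^ 2), B ^ (hits cv S T n c u)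
      ≤ ∑ u ∈ range (p ^ 2), (1 + (hits cv S T n c u : ℝ) / L +
        B ^ M * ((hits cv S T n c u * (hits cv S T n c u - 1) : ℕ) : ℝ) / L ^ 2) :=
        sum_le_sum fun u _ => pow_small hL (hM u)
    _ = (p : ℝ) ^ 2 + (∑ u ∈ range (p ^ 2), (hits cv S T n c u : ℝ)) / L + B ^ M *
        (∑ u ∈ range (p ^ 2), ((hits cv S T n c u * (hits cv S T n c u - 1) : ℕ) : ℝ)) / L ^ 2 := by
        rw [sum_add_distrib, sum_add_distrib, ← sum_div, ← sum_div, ← mul_sum]
        simp
    _ ≤ _ := by
        gcongr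

end Pool.Agent.N885.ET
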