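import Pool.Agent.R447.SB.Cross
import Pool.Agent.N885.ET.Hits

/-!
Tail bound for the number of representations between a fixed set and the random set of one scale,
in terms of the number of coincidences modulo `p²`.
-/

namespace Pool.Agent.N885.ET

open Finset Pool.Agent.R447.SB

variable {p : ℕ} (cv : Curve p)

/-- number of pairs (point of the curve basis, element of `S`) with a given sum modulo `p²` -/
def R1 (S : Finset ℕ) (ρ : ℕ) : ℕ :=
  ∑ ι : Idx p, (S.filter (fun a => a + cv.w ι ≡ ρ [MOD p ^ 2])).card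

lemma cand_sum (hp : 0 < p) (S : Finset ℕ) (τ s n : ℕ) :
    ∑ ι : Idx p, (cand p S (τ + cv.w ι + s * (p ^ 2 * p ^ 2)) n).card =
      R1 cv S (n + (p ^ 2 - 1) * τ) := by
  unfold R1 cand
  refine sum_congr rfl fun ι _ => ?_
  congr 1
  refine filter_congr fun a _ => ?_
  have hq : 0 < p ^ 2 := by positivity
  obtain ⟨q', hq'⟩ : ∃ q', p ^ 2 = q' + 1 := ⟨p ^ 2 - 1, by omega⟩
  rw [hq', Nat.add_sub_cancel]
  have e0 : a + (τ + cv.w ι + s * ((q' + 1) * (q' + 1))) ≡ a + cv.w ι + τ [MOD q' + 1] := by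
    have : a + (τ + cv.w ι + s * ((q' + 1) * (q' + 1))) =
        (a + cv.w ι + τ) + (q' + 1) * (s * (q' + 1)) := by ring
    rw [this]
    exact ((Nat.modEq_iff_dvd' (by omega)).2 (by simp)).symm
  constructor
  · intro h
    have h1 : a + cv.w ι + τ ≡ n [MOD q' + 1] := e0.symm.trans h
    have h2 := Nat.ModEq.add_right (q' * τ) h1
    refine Nat.ModEq.trans ?_ h2
    have : a + cv.w ι + τ + q' * τ = (a + cv.w ι) + (q' + 1) * τ := by ring
    rw [this]
    exact (Nat.modEq_iff_dvd' (by omega)).2 (by simp)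
  · intro h
    refine e0.trans ?_
    have h2 := Nat.ModEq.add_right τ h
    refine h2.trans ?_
    have : n + q' * τ + τ = n + (q' + 1) * τ := by ring
    rw [this]
    exact ((Nat.modEq_iff_dvd' (by omega)).2 (by simp)).symm

lemma tot_moment (hp : 0 < p) (S : Finset ℕ) (μ ν : ℕ)
    (hS : ∀ ρ, (S.filter (fun a => a ≡ ρ [MOD p ^ 2])).card ≤ μ)
    (hR1 : ∀ ρ, R1 cv S ρ ≤ ν) (τ n s : ℕ) (c : Fin 3 × Bool)
    {B : ℝ} (hB : 1 ≤ B) (hBμ : B ^ μ * (4 * μ ^ 2) ≤ p) :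
    ∑ t : (Idx p → Fin (p ^ 2)), B ^ (tot cv S τ n s c (fun ι => (t ι : ℕ))) ≤
      ((p : ℝ) ^ 2) ^ (6 * p) * Real.exp (B * ν / p + 6) := by
  classical
  have hp' : (0 : ℝ) < p := by exact_mod_cast hp
  have h1 : ∀ t : (Idx p → Fin (p ^ 2)), B ^ (tot cv S τ n s c (fun ι => (t ι : ℕ))) =
      ∏ ι : Idx p, B ^ (hits cv S (τ + cv.w ι + s * (p ^ 2 * p ^ 2)) n c (t ι)) := by
    intro t
    unfold tot
    rw [prod_pow_eq_pow_sum]
  simp_rw [h1]
  rw [sum_pi (fun _ : Idx p => Fin (p ^ 2))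
    (fun ι y => B ^ (hits cv S (τ + cv.w ι + s * (p ^ 2 * p ^ 2)) n c (y : ℕ)))]
  set mm : Idx p → ℕ := fun ι => (cand p S (τ + cv.w ι + s * (p ^ 2 * p ^ 2)) n).card with hmm
  have hmμ : ∀ ι, mm ι ≤ μ := by
    intro ι
    have hsub : cand p S (τ + cv.w ι + s * (p ^ 2 * p ^ 2)) n ⊆
        S.filter (fun a => a ≡ n + (p ^ 2 - 1) * (τ + cv.w ι + s * (p ^ 2 * p ^ 2)) [MOD p ^ 2]) := by
      intro a ha
      unfold cand at ha
      rw [mem_filter] at ha ⊢
      refine ⟨ha.1, ?_⟩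
      have hq : 0 < p ^ 2 := by positivity
      obtain ⟨q', hq'⟩ : ∃ q', p ^ 2 = q' + 1 := ⟨p ^ 2 - 1, by omega⟩
      have h2 := ha.2
      rw [hq'] at h2 ⊢
      rw [Nat.add_sub_cancel]
      set T := τ + cv.w ι + s * ((q' + 1) * (q' + 1)) with hT
      have h3 := Nat.ModEq.add_right (q' * T) h2
      refine Nat.ModEq.trans ?_ h3
      have : a + T + q' * T = a + (q' + 1) * T := by ring
      rw [this]
      exact (Nat.modEq_iff_dvd' (by omega)).2 (by simp)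
    exact (card_le_card hsub).trans (hS _)
  have h2 : ∀ ι : Idx p, ∑ y : Fin (p ^ 2),
      B ^ (hits cv S (τ + cv.w ι + s * (p ^ 2 * p ^ 2)) n c (y : ℕ)) ≤
      (p : ℝ) ^ 2 * Real.exp ((B * mm ι + 1) / p) := by
    intro ι
    rw [Fin.sum_univ_eq_sum_range (fun u => B ^ (hits cv S (τ + cv.w ι + s * (p ^ 2 * p ^ 2)) n c u))
      (p ^ 2)]
    have h3 := hits_moment cv hp S μ (τ + cv.w ι + s * (p ^ 2 * p ^ 2)) n c (hmμ ι) hB
    have h4 : (B * mm ι + 1) / p + 1 ≤ Real.exp ((B * mm ι + 1) / p) := Real.add_one_le_exp _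
    calc _ ≤ (p ^ 2 : ℝ) + B * (mm ι * p) + B ^ μ * (4 * μ ^ 2) := h3
      _ ≤ (p : ℝ) ^ 2 + B * (mm ι * p) + p := by linarith
      _ = (p : ℝ) ^ 2 * ((B * mm ι + 1) / p + 1) := by field_simp; ring
      _ ≤ _ := mul_le_mul_of_nonneg_left h4 (by positivity)
  calc _ ≤ ∏ ι : Idx p, ((p : ℝ) ^ 2 * Real.exp ((B * mm ι + 1) / p)) := by
        refine prod_le_prod (fun ι _ => ?_) (fun ι _ => h2 ι)
        exact sum_nonneg fun _ _ => by positivity
    _ = ((p : ℝ) ^ 2) ^ (6 * p) * Real.exp (B * (∑ ι, mm ι : ℕ) / p + 6) := by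
        rw [prod_mul_distrib, prod_const, card_univ, card_idx, ← Real.exp_sum]
        congr 2
        rw [← sum_div, sum_add_distrib, ← mul_sum, sum_const, card_univ, card_idx]
        push_cast
        field_simp
        ring
    _ ≤ _ := by
        have h5 : (∑ ι, mm ι) ≤ ν := by
          rw [hmm, cand_sum cv hp S τ s n]
          exact hR1 _
        have h6 : ((∑ ι, mm ι : ℕ) : ℝ) ≤ ν := by exact_mod_cast h5
        gcongr

open Classical in
/-- the bad choices of translations are few -/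
lemma cross_prob (hp : 0 < p) (S : Finset ℕ) (μ ν : ℕ)
    (hS : ∀ ρ, (S.filter (fun a => a ≡ ρ [MOD p ^ 2])).card ≤ μ)
    (hR1 : ∀ ρ, R1 cv S ρ ≤ ν) (R N0 K τ : ℕ)
    {B : ℝ} (hB : 1 ≤ B) (hBμ : B ^ μ * (4 * μ ^ 2) ≤ p) :
    ((univ.filter (fun t : (Idx p → Fin (p ^ 2)) =>
      BadCross cv S R N0 K τ (fun ι => (t ι : ℕ)))).card : ℝ) ≤
      (N0 * (R * 6) * Real.exp (B * ν / p + 6) / B ^ K) *
        Fintype.card (Idx p → Fin (p ^ 2)) := by
  have hcard : (Fintype.card (Idx p → Fin (p ^ 2)) : ℝ) = ((p : ℝ) ^ 2) ^ (6 * p) := by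
    rw [Fintype.card_fun, card_idx, Fintype.card_fin]
    push_cast
    ring
  set Q := ((p : ℝ) ^ 2) ^ (6 * p) * Real.exp (B * ν / p + 6) with hQ
  have hQ0 : 0 ≤ Q := by positivity
  set T : Finset (ℕ × (ℕ × (Fin 3 × Bool))) := range N0 ×ˢ (Ico 1 R ×ˢ univ) with hT
  set F : (ℕ × (ℕ × (Fin 3 × Bool))) → Finset (Idx p → Fin (p ^ 2)) := fun q =>
    univ.filter (fun t : (Idx p → Fin (p ^ 2)) =>
      K ≤ tot cv S τ q.1 q.2.1 q.2.2 (fun ι => (t ι : ℕ))) with hF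
  have hsub : univ.filter (fun t : (Idx p → Fin (p ^ 2)) =>
      BadCross cv S R N0 K τ (fun ι => (t ι : ℕ))) ⊆ T.biUnion F := by
    intro t ht
    obtain ⟨n, hn, s, hs, c, hK⟩ := (mem_filter.1 ht).2
    rw [mem_biUnion]
    refine ⟨(n, (s, c)), ?_, ?_⟩
    · rw [hT, mem_product, mem_product]
      exact ⟨mem_range.2 hn, hs, mem_univ _⟩
    · rw [hF]
      simp only [mem_filter, mem_univ, true_and]
      exact hK
  have hB0 : (0 : ℝ) < B ^ K := by positivity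
  have hFc : ∀ q, ((F q).card : ℝ) * B ^ K ≤ Q := by
    intro q
    calc ((F q).card : ℝ) * B ^ K = ∑ t ∈ F q, B ^ K := by rw [sum_const, nsmul_eq_mul]
      _ ≤ ∑ t ∈ F q, B ^ (tot cv S τ q.1 q.2.1 q.2.2 (fun ι => (t ι : ℕ))) := by
          refine sum_le_sum fun t ht => ?_
          rw [hF] at ht
          simp only [mem_filter, mem_univ, true_and] at ht
          exact pow_le_pow_right₀ hB ht
      _ ≤ ∑ t : (Idx p → Fin (p ^ 2)), B ^ (tot cv S τ q.1 q.2.1 q.2.2 (fun ι => (t ι : ℕ))) := by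
          refine sum_le_sum_of_subset_of_nonneg (subset_univ _) fun _ _ _ => by positivity
      _ ≤ Q := tot_moment cv hp S μ ν hS hR1 τ q.1 q.2.1 q.2.2 hB hBμ
  have hTc : (T.card : ℝ) ≤ N0 * (R * 6) := by
    rw [hT, card_product, card_product]
    have : (univ : Finset (Fin 3 × Bool)).card = 6 := by simp
    rw [this]
    simp only [card_range, Nat.card_Ico]
    push_cast
    gcongr
    exact_mod_cast Nat.sub_le _ _
  rw [hcard, div_mul_eq_mul_div, le_div_iff₀ hB0]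
  calc ((univ.filter (fun t : (Idx p → Fin (p ^ 2)) =>
      BadCross cv S R N0 K τ (fun ι => (t ι : ℕ)))).card : ℝ) * B ^ K
      ≤ (∑ q ∈ T, ((F q).card : ℝ)) * B ^ K := by
        refine mul_le_mul_of_nonneg_right ?_ hB0.le
        exact_mod_cast (card_le_card hsub).trans card_biUnion_le
    _ = ∑ q ∈ T, ((F q).card : ℝ) * B ^ K := by rw [sum_mul]
    _ ≤ ∑ q ∈ T, Q := sum_le_sum fun q _ => hFc q
    _ = T.card * Q := by rw [sum_const, nsmul_eq_mul]
    _ ≤ N0 * (R * 6) * Q := mul_le_mul_of_nonneg_right hTc hQ0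
    _ = _ := by rw [hQ]; ring

end Pool.Agent.N885.ET
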