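import Pool.Agent.N885.ET.Spread

/-!
The mean of the number of coincidences modulo `p²` between the curves of one scale and the random
set of a smaller scale.
-/

namespace Pool.Agent.N885.ET

open Finset Pool.Agent.R447.SB

variable {P p : ℕ} (cv : Curve P) (cj : Curve p)

/-- mean of a function of one coordinate -/
lemma sum_coord {ι : Type} [Fintype ι] [DecidableEq ι] {Ω : Type} [Fintype Ω] [Nonempty Ω] (X : Ω → ℝ)
    (j : ι) : (∑ t : ι → Ω, X (t j)) = Fintype.card (ι → Ω) * (∑ y, X y) / Fintype.card Ω := by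
  have h := sum_update (fun _ : ι => Ω) (fun t => X (t j)) j
  have hpos : (0 : ℝ) < Fintype.card Ω := by exact_mod_cast Fintype.card_pos
  rw [eq_div_iff hpos.ne', h]
  simp only [Function.update_self]
  rw [sum_const, card_univ, nsmul_eq_mul]

lemma cls_mean {R q ρ : ℕ} (hP : 0 < P) (hc : Nat.Coprime (P ^ 2) q)
    (hmq : P ^ 2 ≤ q) (hqM : q ≤ (R + 1) * (P ^ 2 * P ^ 2)) :
    ∑ τ ∈ range (P ^ 2 * P ^ 2), ∑ t : (Idx P → Fin (P ^ 2)),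
      (cls cv R q ρ τ (fun ι => (t ι : ℕ)) : ℝ) ≤
      (Fintype.card (Idx P → Fin (P ^ 2)) : ℝ) * ((P : ℝ) ^ 2 * P ^ 2) *
        (36 * R * (R + 2) * (P : ℝ) ^ 2 / q) := by
  classical
  have hP' : (0 : ℝ) < P := by exact_mod_cast hP
  have hq : 0 < q := lt_of_lt_of_le (by positivity) hmq
  have hq' : (0 : ℝ) < q := by exact_mod_cast hq
  have : Nonempty (Fin (P ^ 2)) := ⟨⟨0, by positivity⟩⟩
  set C : ℝ := (Fintype.card (Idx P → Fin (P ^ 2)) : ℝ) with hC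
  have hC0 : 0 ≤ C := by positivity
  have h1 : ∀ τ, ∑ t : (Idx P → Fin (P ^ 2)), (cls cv R q ρ τ (fun ι => (t ι : ℕ)) : ℝ) ≤
      C * (6 / P) * ((∑ ι, ws cv R q ρ τ ι : ℕ) : ℝ) := by
    intro τ
    calc ∑ t : (Idx P → Fin (P ^ 2)), (cls cv R q ρ τ (fun ι => (t ι : ℕ)) : ℝ)
        ≤ ∑ t : (Idx P → Fin (P ^ 2)), ∑ ι, (xs cv R q ρ τ ι (t ι : ℕ) : ℝ) := by
          refine sum_le_sum fun t _ => ?_
          exact_mod_cast cls_le cv hP hc hmq (fun ι => (t ι : ℕ))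
      _ = ∑ ι, ∑ t : (Idx P → Fin (P ^ 2)), (xs cv R q ρ τ ι (t ι : ℕ) : ℝ) := sum_comm
      _ = ∑ ι, C * (∑ y : Fin (P ^ 2), (xs cv R q ρ τ ι (y : ℕ) : ℝ)) / (P ^ 2 : ℕ) := by
          refine sum_congr rfl fun ι _ => ?_
          rw [sum_coord (fun y : Fin (P ^ 2) => (xs cv R q ρ τ ι (y : ℕ) : ℝ)) ι, Fintype.card_fin]
      _ ≤ ∑ ι, C * (6 * P * ws cv R q ρ τ ι : ℝ) / (P ^ 2 : ℕ) := by
          refine sum_le_sum fun ι _ => ?_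
          have h2 := xs_sum cv (R := R) (ρ := ρ) (τ := τ) hP hc hmq ι
          rw [Fin.sum_univ_eq_sum_range (fun u => (xs cv R q ρ τ ι u : ℝ)) (P ^ 2)]
          have h3 : (∑ u ∈ range (P ^ 2), (xs cv R q ρ τ ι u : ℝ)) ≤ 6 * P * ws cv R q ρ τ ι := by
            exact_mod_cast h2
          gcongr
      _ = _ := by
          push_cast
          rw [← sum_div, ← mul_sum, ← mul_sum]
          field_simp
  have h2 : ((∑ τ ∈ range (P ^ 2 * P ^ 2), ∑ ι, ws cv R q ρ τ ι : ℕ) : ℝ) ≤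
      6 * P * (R * ((P : ℝ) ^ 2 * ((R + 2) * ((P : ℝ) ^ 2 * P ^ 2 / q)))) := by
    have h3 := ws_sum cv (R := R) (q := q) (ρ := ρ) hq
    calc ((∑ τ ∈ range (P ^ 2 * P ^ 2), ∑ ι, ws cv R q ρ τ ι : ℕ) : ℝ)
        ≤ ((6 * P * (R * (P ^ 2 * (P ^ 2 * P ^ 2 / q + 1))) : ℕ) : ℝ) := by exact_mod_cast h3
      _ ≤ 6 * P * (R * ((P : ℝ) ^ 2 * ((P : ℝ) ^ 2 * P ^ 2 / q + 1))) := by
          push_cast
          gcongr
          calc ((P ^ 2 * P ^ 2 / q : ℕ) : ℝ) ≤ ((P ^ 2 * P ^ 2 : ℕ) : ℝ) / q := Nat.cast_div_le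
            _ = (P : ℝ) ^ 2 * P ^ 2 / q := by push_cast; ring
      _ ≤ _ := by
          gcongr
          have h4 : (q : ℝ) ≤ (R + 1) * ((P : ℝ) ^ 2 * P ^ 2) := by exact_mod_cast hqM
          have h5 : 1 ≤ (R + 1) * ((P : ℝ) ^ 2 * P ^ 2 / q) := by
            rw [← mul_div_assoc, one_le_div hq']
            exact h4
          linarith
  calc _ ≤ ∑ τ ∈ range (P ^ 2 * P ^ 2), C * (6 / P) * ((∑ ι, ws cv R q ρ τ ι : ℕ) : ℝ) :=
        sum_le_sum fun τ _ => h1 τ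
    _ = C * (6 / P) * ((∑ τ ∈ range (P ^ 2 * P ^ 2), ∑ ι, ws cv R q ρ τ ι : ℕ) : ℝ) := by
        rw [← mul_sum]
        push_cast
        rfl
    _ ≤ C * (6 / P) * (6 * P * (R * ((P : ℝ) ^ 2 * ((R + 2) * ((P : ℝ) ^ 2 * P ^ 2 / q))))) := by
        gcongr
    _ = _ := by
        field_simp
        ring

lemma R1_le_cls (hp : 0 < p) (R ρ τ : ℕ) (t : Idx P → ℕ) :
    R1 cj (scaleSet cv R τ t) ρ ≤
      ∑ ι : Idx p, cls cv R (p ^ 2) (ρ + (p ^ 2 - 1) * cj.w ι) τ t := by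
  classical
  unfold R1 cls
  refine sum_le_sum fun ι _ => card_le_card ?_
  intro a ha
  rw [mem_filter] at ha ⊢
  refine ⟨ha.1, ?_⟩
  have hq : 0 < p ^ 2 := by positivity
  obtain ⟨q', hq'⟩ : ∃ q', p ^ 2 = q' + 1 := ⟨p ^ 2 - 1, by omega⟩
  have h2 := ha.2
  rw [hq'] at h2 ⊢
  rw [Nat.add_sub_cancel]
  have h3 := Nat.ModEq.add_right (q' * cj.w ι) h2
  refine Nat.ModEq.trans ?_ h3
  have : a + cj.w ι + q' * cj.w ι = a + (q' + 1) * cj.w ι := by ring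
  rw [this]
  exact (Nat.modEq_iff_dvd' (by omega)).2 (by simp)

lemma R1_mean {R : ℕ} (hP : 0 < P) (hp : 0 < p) (hc : Nat.Coprime (P ^ 2) (p ^ 2))
    (hPp : P ^ 2 ≤ p ^ 2) (hqM : p ^ 2 ≤ (R + 1) * (P ^ 2 * P ^ 2)) (ρ : ℕ) :
    ∑ τ ∈ range (P ^ 2 * P ^ 2), ∑ t : (Idx P → Fin (P ^ 2)),
      (R1 cj (scaleSet cv R τ (fun ι => (t ι : ℕ))) ρ : ℝ) ≤
      (Fintype.card (Idx P → Fin (P ^ 2)) : ℝ) * ((P : ℝ) ^ 2 * P ^ 2) *
        (216 * R * (R + 2) * (P : ℝ) ^ 2 / p) := by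
  classical
  have hp' : (0 : ℝ) < p := by exact_mod_cast hp
  calc _ ≤ ∑ τ ∈ range (P ^ 2 * P ^ 2), ∑ t : (Idx P → Fin (P ^ 2)), ∑ ι : Idx p,
        (cls cv R (p ^ 2) (ρ + (p ^ 2 - 1) * cj.w ι) τ (fun ι => (t ι : ℕ)) : ℝ) := by
        refine sum_le_sum fun τ _ => sum_le_sum fun t _ => ?_
        exact_mod_cast R1_le_cls cv cj hp R ρ τ (fun ι => (t ι : ℕ))
    _ = ∑ ι : Idx p, ∑ τ ∈ range (P ^ 2 * P ^ 2), ∑ t : (Idx P → Fin (P ^ 2)),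
        (cls cv R (p ^ 2) (ρ + (p ^ 2 - 1) * cj.w ι) τ (fun ι => (t ι : ℕ)) : ℝ) := by
        rw [sum_comm]
        simp_rw [sum_comm (s := (univ : Finset (Idx p)))]
        rw [sum_comm]
    _ ≤ ∑ ι : Idx p, (Fintype.card (Idx P → Fin (P ^ 2)) : ℝ) * ((P : ℝ) ^ 2 * P ^ 2) *
        (36 * R * (R + 2) * (P : ℝ) ^ 2 / (p ^ 2 : ℕ)) :=
        sum_le_sum fun ι _ => cls_mean cv hP hc hPp hqM
    _ = _ := by
        rw [sum_const, card_univ, card_idx, nsmul_eq_mul]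
        push_cast
        field_simp
        ring

end Pool.Agent.N885.ET
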