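import Pool.Agent.R447.SB.Class
import Pool.Agent.N885.ET.Cross

/-!
The number of coincidences modulo `p²` between the curves of one scale and the random set of a
smaller scale: an exponential moment.
-/

namespace Pool.Agent.N885.ET

open Finset Pool.Agent.R447.SB

variable {P p : ℕ} (cv : Curve P) (cj : Curve p)

/-- points of the curve basis in a given class -/
lemma fiber_card (y ρ : ℕ) :
    ((univ : Finset (Idx p)).filter (fun ι => y + cj.w ι ≡ ρ [MOD p ^ 2])).card ≤ 12 := by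
  classical
  set F := (univ : Finset (Idx p)).filter (fun ι => y + cj.w ι ≡ ρ [MOD p ^ 2]) with hF
  rcases F.eq_empty_or_nonempty with h | ⟨ι0, h0⟩
  · rw [h]; simp
  · have h1 : ∀ ι ∈ F, cj.w ι ≡ cj.w ι0 [MOD p ^ 2] := by
      intro ι hι
      have h2 := (mem_filter.1 hι).2
      have h3 := (mem_filter.1 h0).2
      exact Nat.ModEq.add_left_cancel' y (h2.trans h3.symm)
    have hsub : F ×ˢ F ⊆ (univ : Finset (Idx p × Idx p)).filter
        (fun q => cj.v q.1.1 q.1.2 + cj.v q.2.1 q.2.2 ≡ cj.w ι0 + cj.w ι0 [MOD p ^ 2]) := by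
      rintro ⟨ι, κ⟩ hq
      rw [mem_product] at hq
      rw [mem_filter]
      exact ⟨mem_univ _, Nat.ModEq.add (h1 _ hq.1) (h1 _ hq.2)⟩
    have h2 := (card_le_card hsub).trans (cj.pairs _)
    rw [card_product] at h2
    by_contra h3
    push Not at h3
    have : 13 * 13 ≤ F.card * F.card := Nat.mul_le_mul (by omega) (by omega)
    omega

/-- the possible upper digits -/
noncomputable def Zs (ρ τ s : ℕ) (ι' : Idx P) : Finset ℕ :=
  open Classical in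
  (range (P ^ 2)).filter (fun z => ∃ ι : Idx p,
    τ + cv.w ι' + P ^ 2 * z + s * (P ^ 2 * P ^ 2) + cj.w ι ≡ ρ [MOD p ^ 2])

/-- the upper digits as numbers to which `hits` applies -/
noncomputable def Zi (ρ τ s : ℕ) (ι' : Idx P) : Finset ℕ :=
  (Zs cv cj ρ τ s ι').image (fun z => P ^ 2 * P ^ 2 - P ^ 2 * z)

lemma Zs_card (hp : 0 < p) (hc : Nat.Coprime (P ^ 2) (p ^ 2)) (hPp : P ^ 2 ≤ p ^ 2) (ρ τ s : ℕ)
    (ι' : Idx P) : (Zs cv cj ρ τ s ι').card ≤ 6 * p := by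
  classical
  have hex : ∀ z ∈ Zs cv cj ρ τ s ι', ∃ ι : Idx p,
      τ + cv.w ι' + P ^ 2 * z + s * (P ^ 2 * P ^ 2) + cj.w ι ≡ ρ [MOD p ^ 2] := by
    intro z hz
    unfold Zs at hz
    exact (mem_filter.1 hz).2
  have : Nonempty (Idx p) := ⟨((0, false), ⟨0, hp⟩)⟩
  choose! f hf using hex
  have h : (Zs cv cj ρ τ s ι').card ≤ (univ : Finset (Idx p)).card := by
    refine card_le_card_of_injOn f (fun _ _ => mem_coe.2 (mem_univ _)) ?_
    intro z hz z' hz' hzz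
    rw [mem_coe] at hz hz'
    have h1 := hf z hz
    have h2 := hf z' hz'
    rw [← hzz] at h2
    have h3 := Nat.ModEq.add_right_cancel' (cj.w (f z)) (h1.trans h2.symm)
    unfold Zs at hz hz'
    have hzl := mem_range.1 (mem_filter.1 hz).1
    have hzl' := mem_range.1 (mem_filter.1 hz').1
    exact z_unique hc hPp hzl hzl' h3 (Nat.ModEq.refl _)
  rwa [card_univ, card_idx] at h

lemma Zi_card (hp : 0 < p) (hc : Nat.Coprime (P ^ 2) (p ^ 2)) (hPp : P ^ 2 ≤ p ^ 2) (ρ τ s : ℕ)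
    (ι' : Idx P) : (Zi cv cj ρ τ s ι').card ≤ 6 * p :=
  card_image_le.trans (Zs_card cv cj hp hc hPp ρ τ s ι')

lemma digits_le_hits (ρ τ s : ℕ) (ι' : Idx P) (c : Fin 3 × Bool) (u : ℕ) :
    open Classical in
    ((Zs cv cj ρ τ s ι').filter (fun z => ∃ x : Fin P, (cv.v c x + u) % P ^ 2 = z)).card ≤
      hits cv (Zi cv cj ρ τ s ι') 0 (P ^ 2 * P ^ 2) c u := by
  classical
  rcases Nat.eq_zero_or_pos P with h0 | hP
  · subst h0
    have : (Zs cv cj ρ τ s ι') = ∅ := by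
      unfold Zs
      simp
    rw [this]
    simp
  unfold hits
  refine card_le_card_of_injOn (fun z => P ^ 2 * P ^ 2 - P ^ 2 * z) ?_ ?_
  · intro z hz
    rw [mem_coe, mem_filter] at hz
    rw [mem_coe, mem_filter]
    refine ⟨mem_image.2 ⟨z, hz.1, rfl⟩, ?_⟩
    obtain ⟨x, hx⟩ := hz.2
    refine ⟨x, ?_⟩
    have hzl : z < P ^ 2 := by
      have := hz.1
      unfold Zs at this
      exact mem_range.1 (mem_filter.1 this).1
    rw [hx]
    have : P ^ 2 * z ≤ P ^ 2 * P ^ 2 := Nat.mul_le_mul_left _ hzl.le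
    show P ^ 2 * P ^ 2 - P ^ 2 * z + (0 + P ^ 2 * z) = P ^ 2 * P ^ 2
    omega
  · intro z hz z' hz' h
    rw [mem_coe, mem_filter] at hz hz'
    have hzl : z < P ^ 2 := by
      have := hz.1
      unfold Zs at this
      exact mem_range.1 (mem_filter.1 this).1
    have hzl' : z' < P ^ 2 := by
      have := hz'.1
      unfold Zs at this
      exact mem_range.1 (mem_filter.1 this).1
    have h1 : P ^ 2 * z ≤ P ^ 2 * P ^ 2 := Nat.mul_le_mul_left _ hzl.le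
    have h2 : P ^ 2 * z' ≤ P ^ 2 * P ^ 2 := Nat.mul_le_mul_left _ hzl'.le
    simp only at h
    have h3 : P ^ 2 * z = P ^ 2 * z' := by omega
    exact Nat.eq_of_mul_eq_mul_left (by positivity) h3

/-- the coincidences of type `(s, c)` -/
noncomputable def gs (ρ τ s : ℕ) (c : Fin 3 × Bool) (t : Idx P → ℕ) : ℕ :=
  ∑ ι' : Idx P, hits cv (Zi cv cj ρ τ s ι') 0 (P ^ 2 * P ^ 2) c (t ι')

/-- all coincidences are of some type -/
lemma R1_le_gs (R ρ τ : ℕ) (t : Idx P → ℕ) :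
    R1 cj (scaleSet cv R τ t) ρ ≤ 12 * ∑ s ∈ Ico 1 R, ∑ c, gs cv cj ρ τ s c t := by
  classical
  set D : Finset (Σ _ : Idx p, ℕ) := (univ : Finset (Idx p)).sigma (fun ι =>
    (scaleSet cv R τ t).filter (fun a => a + cj.w ι ≡ ρ [MOD p ^ 2])) with hD
  have hDc : R1 cj (scaleSet cv R τ t) ρ = D.card := by
    rw [hD, card_sigma]
    rfl
  set I : Finset (ℕ × ((Fin 3 × Bool) × Idx P)) := Ico 1 R ×ˢ (univ ×ˢ univ) with hI
  set G : ℕ × ((Fin 3 × Bool) × Idx P) → Finset ℕ := fun q =>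
    (Zs cv cj ρ τ q.1 q.2.2).filter (fun z => ∃ x : Fin P, (cv.v q.2.1 x + t q.2.2) % P ^ 2 = z)
    with hG
  set aa : ℕ → Idx P → ℕ → ℕ := fun s ι' z => τ + cv.w ι' + P ^ 2 * z + s * (P ^ 2 * P ^ 2) with haa
  set H : ℕ × ((Fin 3 × Bool) × Idx P) → Finset (Σ _ : Idx p, ℕ) := fun q =>
    (G q).biUnion (fun z => ((univ : Finset (Idx p)).filter
      (fun ι => aa q.1 q.2.2 z + cj.w ι ≡ ρ [MOD p ^ 2])).image
        (fun ι => (⟨ι, aa q.1 q.2.2 z⟩ : Σ _ : Idx p, ℕ))) with hH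
  have hsub : D ⊆ I.biUnion H := by
    rintro ⟨ι, a⟩ hq
    rw [hD, mem_sigma, mem_filter] at hq
    obtain ⟨-, ha, hρ⟩ := hq
    obtain ⟨s, ι', κ, h1, h2, h3⟩ := (mem_scaleSet cv).1 ha
    simp only at h3 hρ
    have ha' : aa s ι' ((cv.w κ + t ι') % P ^ 2) = a := by
      rw [haa, ← h3]
      rfl
    rw [mem_biUnion]
    refine ⟨(s, (κ.1, ι')), ?_, ?_⟩
    · rw [hI, mem_product, mem_product]
      exact ⟨mem_Ico.2 ⟨h1, h2⟩, mem_univ _, mem_univ _⟩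
    · rw [hH]
      simp only
      rw [mem_biUnion]
      rcases Nat.eq_zero_or_pos P with h0 | hP
      · exact absurd κ.2.2 (by omega)
      have hz : (cv.w κ + t ι') % P ^ 2 < P ^ 2 := Nat.mod_lt _ (by positivity)
      refine ⟨(cv.w κ + t ι') % P ^ 2, ?_, ?_⟩
      · rw [hG]
        simp only
        rw [mem_filter]
        refine ⟨?_, κ.2, rfl⟩
        unfold Zs
        rw [mem_filter, mem_range]
        refine ⟨hz, ι, ?_⟩
        have : aa s ι' ((cv.w κ + t ι') % P ^ 2) + cj.w ι ≡ ρ [MOD p ^ 2] := by rw [ha']; exact hρ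
        exact this
      · rw [mem_image]
        refine ⟨ι, mem_filter.2 ⟨mem_univ _, ?_⟩, ?_⟩
        · rw [ha']; exact hρ
        · rw [ha']
  have hHc : ∀ q, (H q).card ≤ 12 * hits cv (Zi cv cj ρ τ q.1 q.2.2) 0 (P ^ 2 * P ^ 2) q.2.1 (t q.2.2) := by
    intro q
    calc (H q).card ≤ ∑ z ∈ G q, (((univ : Finset (Idx p)).filter
          (fun ι => aa q.1 q.2.2 z + cj.w ι ≡ ρ [MOD p ^ 2])).image
            (fun ι => (⟨ι, aa q.1 q.2.2 z⟩ : Σ _ : Idx p, ℕ))).card := card_biUnion_le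
      _ ≤ ∑ z ∈ G q, 12 := sum_le_sum fun z _ => card_image_le.trans (fiber_card cj _ _)
      _ = 12 * (G q).card := by rw [sum_const, smul_eq_mul, mul_comm]
      _ ≤ _ := Nat.mul_le_mul_left _ (digits_le_hits cv cj ρ τ q.1 q.2.2 q.2.1 (t q.2.2))
  rw [hDc]
  calc D.card ≤ ∑ q ∈ I, (H q).card := (card_le_card hsub).trans card_biUnion_le
    _ ≤ ∑ q ∈ I, 12 * hits cv (Zi cv cj ρ τ q.1 q.2.2) 0 (P ^ 2 * P ^ 2) q.2.1 (t q.2.2) :=
        sum_le_sum fun q _ => hHc q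
    _ = _ := by
        rw [← mul_sum, hI, sum_product]
        simp only
        congr 1
        refine sum_congr rfl fun s _ => ?_
        rw [sum_product]
        rfl

/-- the exponential moment of the number of coincidences -/
lemma gs_moment (hP : 0 < P) (hp : 0 < p) (hc : Nat.Coprime (P ^ 2) (p ^ 2)) (hPp : P ^ 2 ≤ p ^ 2)
    (ρ τ s : ℕ) (c : Fin 3 × Bool) {L : ℕ} (hL : 1 ≤ L)
    (hB : 864 * (1 + 1 / (2 * (L : ℝ))) ^ (6 * p) * (p : ℝ) ^ 2 ≤ L ^ 2 * P) :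
    ∑ t : (Idx P → Fin (P ^ 2)), (1 + 1 / (2 * (L : ℝ))) ^ (gs cv cj ρ τ s c (fun ι => (t ι : ℕ))) ≤
      ((P : ℝ) ^ 2) ^ (6 * P) * Real.exp (36 * p / L + 1) := by
  classical
  have hP' : (0 : ℝ) < P := by exact_mod_cast hP
  have hL' : (0 : ℝ) < L := by exact_mod_cast hL
  set B : ℝ := 1 + 1 / (2 * (L : ℝ)) with hBdef
  have hB0 : 0 < B := by rw [hBdef]; positivity
  have h1 : ∀ t : (Idx P → Fin (P ^ 2)), B ^ (gs cv cj ρ τ s c (fun ι => (t ι : ℕ))) =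
      ∏ ι : Idx P, B ^ (hits cv (Zi cv cj ρ τ s ι) 0 (P ^ 2 * P ^ 2) c (t ι)) := by
    intro t
    unfold gs
    rw [prod_pow_eq_pow_sum]
  simp_rw [h1]
  rw [sum_pi (fun _ : Idx P => Fin (P ^ 2))
    (fun ι y => B ^ (hits cv (Zi cv cj ρ τ s ι) 0 (P ^ 2 * P ^ 2) c (y : ℕ)))]
  have hcand : ∀ ι, (cand P (Zi cv cj ρ τ s ι) 0 (P ^ 2 * P ^ 2)).card ≤ 6 * p := fun ι =>
    (card_filter_le _ _).trans (Zi_card cv cj hp hc hPp ρ τ s ι)
  have h2 : ∀ ι : Idx P, ∑ y : Fin (P ^ 2),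
      B ^ (hits cv (Zi cv cj ρ τ s ι) 0 (P ^ 2 * P ^ 2) c (y : ℕ)) ≤
      (P : ℝ) ^ 2 * Real.exp ((6 * p / L + 1 / 6) / P) := by
    intro ι
    rw [Fin.sum_univ_eq_sum_range (fun u => B ^ (hits cv (Zi cv cj ρ τ s ι) 0 (P ^ 2 * P ^ 2) c u))
      (P ^ 2)]
    have h3 := hits_small cv hP (Zi cv cj ρ τ s ι) (6 * p) (6 * p) L hL 0 (P ^ 2 * P ^ 2) c (hcand ι)
      (fun u => (hits_le cv _ _ _ _ _).trans (hcand ι))
    have h4 : (6 * p / L + 1 / 6 : ℝ) / P + 1 ≤ Real.exp ((6 * p / L + 1 / 6) / P) :=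
      Real.add_one_le_exp _
    have h5 : B ^ (6 * p) * (4 * ((6 * p : ℕ) : ℝ) ^ 2) / L ^ 2 ≤ P / 6 := by
      rw [div_le_div_iff₀ (by positivity) (by norm_num)]
      push_cast
      calc B ^ (6 * p) * (4 * (6 * (p : ℝ)) ^ 2) * (6 : ℝ) = 864 * B ^ (6 * p) * (p : ℝ) ^ 2 := by ring
        _ ≤ (L : ℝ) ^ 2 * P := hB
        _ = (P : ℝ) * (L : ℝ) ^ 2 := by ring
    calc _ ≤ (P : ℝ) ^ 2 + (((6 * p : ℕ) : ℝ) * P : ℝ) / L +
          B ^ (6 * p) * (4 * ((6 * p : ℕ) : ℝ) ^ 2) / L ^ 2 := h3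
      _ ≤ (P : ℝ) ^ 2 + (((6 * p : ℕ) : ℝ) * P : ℝ) / L + P / 6 := by linarith
      _ = (P : ℝ) ^ 2 * ((6 * p / L + 1 / 6) / P + 1) := by push_cast; field_simp; ring
      _ ≤ _ := mul_le_mul_of_nonneg_left h4 (by positivity)
  calc _ ≤ ∏ ι : Idx P, ((P : ℝ) ^ 2 * Real.exp ((6 * p / L + 1 / 6) / P)) := by
        refine prod_le_prod (fun ι _ => ?_) (fun ι _ => h2 ι)
        exact sum_nonneg fun _ _ => by positivity
    _ = _ := by
        rw [prod_const, card_univ, card_idx, mul_pow, ← Real.exp_nat_mul]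
        congr 2
        push_cast
        field_simp
        ring

/-- too many coincidences -/
def BadSpread (R K τ : ℕ) (t : Idx P → ℕ) : Prop :=
  ∃ ρ < p ^ 2, ∃ s ∈ Ico 1 R, ∃ c, K ≤ gs cv cj ρ τ s c t

lemma gs_mod (ρ τ s : ℕ) (c : Fin 3 × Bool) (t : Idx P → ℕ) :
    gs cv cj (ρ % p ^ 2) τ s c t = gs cv cj ρ τ s c t := by
  classical
  unfold gs
  refine sum_congr rfl fun ι' _ => ?_
  have h : Zs cv cj (ρ % p ^ 2) τ s ι' = Zs cv cj ρ τ s ι' := by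
    unfold Zs
    ext z
    rw [mem_filter, mem_filter]
    simp only [Nat.ModEq, Nat.mod_mod]
  unfold Zi
  rw [h]

lemma spread_good (hp : 0 < p) {R K τ : ℕ} {t : Idx P → ℕ} (h : ¬ BadSpread cv cj R K τ t) (ρ : ℕ) :
    R1 cj (scaleSet cv R τ t) ρ ≤ 72 * R * K := by
  unfold BadSpread at h
  push Not at h
  have h1 : ∀ s ∈ Ico 1 R, ∀ c, gs cv cj ρ τ s c t ≤ K := by
    intro s hs c
    rw [← gs_mod]
    exact (h (ρ % p ^ 2) (Nat.mod_lt _ (by positivity)) s hs c).le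
  refine (R1_le_gs cv cj R ρ τ t).trans ?_
  calc 12 * ∑ s ∈ Ico 1 R, ∑ c, gs cv cj ρ τ s c t ≤ 12 * ∑ s ∈ Ico 1 R, ∑ c : Fin 3 × Bool, K :=
        Nat.mul_le_mul_left _ (sum_le_sum fun s hs => sum_le_sum fun c _ => h1 s hs c)
    _ = 12 * ((R - 1) * (6 * K)) := by simp
    _ ≤ 12 * (R * (6 * K)) := by gcongr; omega
    _ = 72 * R * K := by ring

open Classical in
lemma spread_prob (hP : 0 < P) (hp : 0 < p) (hc : Nat.Coprime (P ^ 2) (p ^ 2))
    (hPp : P ^ 2 ≤ p ^ 2) (R K τ : ℕ) {L : ℕ} (hL : 1 ≤ L)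
    (hB : 864 * (1 + 1 / (2 * (L : ℝ))) ^ (6 * p) * (p : ℝ) ^ 2 ≤ L ^ 2 * P) :
    ((univ.filter (fun t : (Idx P → Fin (P ^ 2)) =>
      BadSpread cv cj R K τ (fun ι => (t ι : ℕ)))).card : ℝ) ≤
      ((p ^ 2 : ℕ) * (R * 6) * Real.exp (36 * p / L + 1) / (1 + 1 / (2 * (L : ℝ))) ^ K) *
        Fintype.card (Idx P → Fin (P ^ 2)) := by
  have hL' : (0 : ℝ) < L := by exact_mod_cast hL
  have hcard : (Fintype.card (Idx P → Fin (P ^ 2)) : ℝ) = ((P : ℝ) ^ 2) ^ (6 * P) := by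
    rw [Fintype.card_fun, card_idx, Fintype.card_fin]
    push_cast
    ring
  set B : ℝ := 1 + 1 / (2 * (L : ℝ)) with hBdef
  have hB1 : 1 ≤ B := by rw [hBdef]; have : (0 : ℝ) ≤ 1 / (2 * L) := by positivity
                         linarith
  set Q := ((P : ℝ) ^ 2) ^ (6 * P) * Real.exp (36 * p / L + 1) with hQ
  have hQ0 : 0 ≤ Q := by positivity
  set T : Finset (ℕ × (ℕ × (Fin 3 × Bool))) := range (p ^ 2) ×ˢ (Ico 1 R ×ˢ univ) with hT
  set F : (ℕ × (ℕ × (Fin 3 × Bool))) → Finset (Idx P → Fin (P ^ 2)) := fun q =>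
    univ.filter (fun t : (Idx P → Fin (P ^ 2)) =>
      K ≤ gs cv cj q.1 τ q.2.1 q.2.2 (fun ι => (t ι : ℕ))) with hF
  have hsub : univ.filter (fun t : (Idx P → Fin (P ^ 2)) =>
      BadSpread cv cj R K τ (fun ι => (t ι : ℕ))) ⊆ T.biUnion F := by
    intro t ht
    obtain ⟨n, hn, s, hs, c, hK⟩ := (mem_filter.1 ht).2
    rw [mem_biUnion]
    refine ⟨(n, (s, c)), ?_, ?_⟩
    · rw [hT, mem_product, mem_product]
      exact ⟨mem_range.2 hn, hs, mem_univ _⟩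
    · rw [hF]
      simp only [mem_filter, mem_univ, true_and]
      exact hK
  have hB0 : (0 : ℝ) < B ^ K := by positivity
  have hFc : ∀ q, ((F q).card : ℝ) * B ^ K ≤ Q := by
    intro q
    calc ((F q).card : ℝ) * B ^ K = ∑ t ∈ F q, B ^ K := by rw [sum_const, nsmul_eq_mul]
      _ ≤ ∑ t ∈ F q, B ^ (gs cv cj q.1 τ q.2.1 q.2.2 (fun ι => (t ι : ℕ))) := by
          refine sum_le_sum fun t ht => ?_
          rw [hF] at ht
          simp only [mem_filter, mem_univ, true_and] at ht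
          exact pow_le_pow_right₀ hB1 ht
      _ ≤ ∑ t : (Idx P → Fin (P ^ 2)), B ^ (gs cv cj q.1 τ q.2.1 q.2.2 (fun ι => (t ι : ℕ))) := by
          refine sum_le_sum_of_subset_of_nonneg (subset_univ _) fun _ _ _ => by positivity
      _ ≤ Q := gs_moment cv cj hP hp hc hPp q.1 τ q.2.1 q.2.2 hL hB
  have hTc : (T.card : ℝ) ≤ (p ^ 2 : ℕ) * (R * 6) := by
    rw [hT, card_product, card_product]
    have : (univ : Finset (Fin 3 × Bool)).card = 6 := by simp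
    rw [this]
    simp only [card_range, Nat.card_Ico]
    push_cast
    gcongr
    exact_mod_cast Nat.sub_le _ _
  rw [hcard, div_mul_eq_mul_div, le_div_iff₀ hB0]
  calc ((univ.filter (fun t : (Idx P → Fin (P ^ 2)) =>
      BadSpread cv cj R K τ (fun ι => (t ι : ℕ)))).card : ℝ) * B ^ K
      ≤ (∑ q ∈ T, ((F q).card : ℝ)) * B ^ K := by
        refine mul_le_mul_of_nonneg_right ?_ hB0.le
        exact_mod_cast (card_le_card hsub).trans card_biUnion_le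
    _ = ∑ q ∈ T, ((F q).card : ℝ) * B ^ K := by rw [sum_mul]
    _ ≤ ∑ q ∈ T, Q := sum_le_sum fun q _ => hFc q
    _ = T.card * Q := by rw [sum_const, nsmul_eq_mul]
    _ ≤ (p ^ 2 : ℕ) * (R * 6) * Q := mul_le_mul_of_nonneg_right hTc hQ0
    _ = _ := by rw [hQ]; ring

end Pool.Agent.N885.ET
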