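import Pool.Agent.R447.SB.Select
import Pool.Agent.N885.ET.First

/-!
The number of coincidences modulo `p²` between the curves of one scale and all the smaller scales.
-/

namespace Pool.Agent.N885.ET

open Finset Pool.Agent.R447.SB

/-- coincidences between the random set of scale `i` and the curves of scale `j` -/
noncomputable def RR (R i j ρ : ℕ) (y : Om i) : ℕ := R1 (cvs j) (AS R i y) ρ

/-- too many coincidences between the random set of scale `i` and the curves of scale `j` -/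
def BadSp (R i j K : ℕ) (y : Om i) : Prop :=
  BadSpread (cvs i) (cvs j) R K (y.1 : ℕ) (fun ι => (y.2 ι : ℕ))

lemma shift_iff {q a w ρ : ℕ} (hq : 0 < q) :
    a + w ≡ ρ [MOD q] ↔ a ≡ ρ + (q - 1) * w [MOD q] := by
  obtain ⟨q', rfl⟩ : ∃ q', q = q' + 1 := ⟨q - 1, by omega⟩
  rw [Nat.add_sub_cancel]
  constructor
  · intro h
    have h3 := Nat.ModEq.add_right (q' * w) h
    refine Nat.ModEq.trans ?_ h3
    have : a + w + q' * w = a + (q' + 1) * w := by ring
    rw [this]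
    exact (Nat.modEq_iff_dvd' (by omega)).2 (by simp)
  · intro h
    have h3 := Nat.ModEq.add_right w h
    refine h3.trans ?_
    have : ρ + q' * w + w = ρ + (q' + 1) * w := by ring
    rw [this]
    exact ((Nat.modEq_iff_dvd' (by omega)).2 (by simp)).symm

lemma R1_eq {p : ℕ} (cj : Curve p) (hp : 0 < p) (S : Finset ℕ) (ρ : ℕ) :
    R1 cj S ρ = ∑ ι : Idx p, (S.filter (fun a => a ≡ ρ + (p ^ 2 - 1) * cj.w ι [MOD p ^ 2])).card := by
  unfold R1
  refine sum_congr rfl fun ι _ => ?_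
  congr 1
  refine filter_congr fun a _ => ?_
  exact shift_iff (by positivity)

lemma R1_split (R j0 j : ℕ) (x : ∀ i, Om i) (ρ : ℕ) :
    R1 (cvs j) (SS R j0 j x) ρ ≤ 6 * pr j + ∑ i ∈ Irel R j0 j, RR R i j ρ (x i) := by
  classical
  rw [R1_eq (cvs j) (pr_pos j)]
  calc _ ≤ ∑ ι : Idx (pr j), (1 + ∑ i ∈ Irel R j0 j, cls (cvs i) R (pr j ^ 2)
        (ρ + (pr j ^ 2 - 1) * (cvs j).w ι) (x i).1 (fun ι => ((x i).2 ι : ℕ))) :=
        sum_le_sum fun ι _ => class_split R j0 j x _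
    _ = 6 * pr j + ∑ i ∈ Irel R j0 j, RR R i j ρ (x i) := by
        rw [sum_add_distrib, sum_comm]
        congr 1
        · rw [sum_const, card_univ, card_idx]; simp
        · refine sum_congr rfl fun i _ => ?_
          unfold RR
          rw [R1_eq (cvs j) (pr_pos j)]
          rfl

lemma R1_mod {p : ℕ} (cj : Curve p) (S : Finset ℕ) (ρ : ℕ) :
    R1 cj S (ρ % p ^ 2) = R1 cj S ρ := by
  unfold R1
  refine sum_congr rfl fun ι _ => ?_
  congr 1
  refine filter_congr fun a _ => ?_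
  unfold Nat.ModEq
  rw [Nat.mod_mod]

/-- truncated number of coincidences -/
noncomputable def YY (R i j ρ Y : ℕ) (y : Om i) : ℕ := min (RR R i j ρ y) Y

/-- the sum condition -/
def SumOK (R j0 j ν : ℕ) (x : ∀ i, Om i) : Prop :=
  ∀ ρ, R1 (cvs j) (SS R j0 j x) ρ ≤ ν

lemma SumOK_congr (R j0 j ν : ℕ) {x x' : ∀ i, Om i} (h : ∀ i < j, x i = x' i) :
    SumOK R j0 j ν x ↔ SumOK R j0 j ν x' := by
  unfold SumOK
  rw [SS_congr R j0 j h]

lemma sumOK_of {R j0 j K ν : ℕ} {x : ∀ i, Om i}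
    (h1 : ∀ i ∈ Irel R j0 j, ¬ BadSp R i j K (x i))
    (h2 : ∀ ρ < pr j ^ 2, ∑ i ∈ Irel R j0 j, YY R i j ρ (72 * R * K) (x i) < ν) :
    SumOK R j0 j (6 * pr j + ν) x := by
  intro ρ
  rw [← R1_mod]
  refine (R1_split R j0 j x _).trans ?_
  refine Nat.add_le_add_left ?_ _
  refine le_trans ?_ (h2 (ρ % pr j ^ 2) (Nat.mod_lt _ (by have := pr_pos j; positivity))).le
  refine sum_le_sum fun i hi => ?_
  unfold YY
  refine le_min le_rfl ?_
  exact spread_good (cvs i) (cvs j) (pr_pos j) (h1 i hi) _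

/-- mean of a function of one coordinate, dependent product -/
lemma sum_coord' {ι : Type} [Fintype ι] [DecidableEq ι] (Ω : ι → Type) [∀ i, Fintype (Ω i)]
    [∀ i, Nonempty (Ω i)] (j : ι) (X : Ω j → ℝ) :
    (∑ t : (∀ i, Ω i), X (t j)) = Fintype.card (∀ i, Ω i) * ((∑ y, X y) / Fintype.card (Ω j)) := by
  have h := sum_update Ω (fun t => X (t j)) j
  have hpos : (0 : ℝ) < Fintype.card (Ω j) := by exact_mod_cast Fintype.card_pos
  rw [← mul_div_assoc, eq_div_iff hpos.ne', h]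
  simp only [Function.update_self]
  rw [sum_const, card_univ, nsmul_eq_mul]

open Classical in
lemma spread_horizon {R i j J K : ℕ} (hij : i < j) (hj : j < J) {L : ℕ} (hL : 1 ≤ L)
    (hB : 864 * (1 + 1 / (2 * (L : ℝ))) ^ (6 * pr j) * (pr j : ℝ) ^ 2 ≤ L ^ 2 * pr i) :
    ((univ.filter (fun x : (∀ i : Fin J, Om i) => BadSp R i j K (ext Om x i))).card : ℝ) ≤
      ((pr j ^ 2 : ℕ) * (R * 6) * Real.exp (36 * pr j / L + 1) / (1 + 1 / (2 * (L : ℝ))) ^ K) *
        Fintype.card (∀ i : Fin J, Om i) := by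
  set c : ℝ := ((pr j ^ 2 : ℕ) * (R * 6) * Real.exp (36 * pr j / L + 1) /
    (1 + 1 / (2 * (L : ℝ))) ^ K) with hc
  have hiJ : i < J := by omega
  set G : ℕ → (Idx (pr i) → Fin (pr i ^ 2)) → ℝ := fun τ t =>
    if BadSpread (cvs i) (cvs j) R K τ (fun ι => (t ι : ℕ)) then 1 else 0 with hG
  have hGc : ∀ τ, ∑ t, G τ t = ((univ.filter (fun t : (Idx (pr i) → Fin (pr i ^ 2)) =>
      BadSpread (cvs i) (cvs j) R K τ (fun ι => (t ι : ℕ)))).card : ℝ) := by
    intro τ
    rw [natCast_card_filter]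
  set X : Om i → ℝ := fun y => G (y.1 : ℕ) y.2 with hX
  have hX1 : ∀ y, BadSp R i j K y → X y = 1 := by
    intro y hy
    rw [hX, hG]
    exact if_pos hy
  have hX0 : ∀ y, ¬ BadSp R i j K y → X y = 0 := by
    intro y hy
    rw [hX, hG]
    exact if_neg hy
  have h1 : ((univ.filter (fun x : (∀ i : Fin J, Om i) => BadSp R i j K (ext Om x i))).card : ℝ) =
      ∑ x : (∀ i : Fin J, Om i), X (x ⟨i, hiJ⟩) := by
    rw [natCast_card_filter]
    refine sum_congr rfl fun x _ => ?_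
    rw [ext_apply Om x i hiJ]
    by_cases h : BadSp R i j K (x ⟨i, hiJ⟩)
    · rw [if_pos h, hX1 _ h]
    · rw [if_neg h, hX0 _ h]
  rw [h1, sum_coord' (fun i : Fin J => Om i) ⟨i, hiJ⟩ X]
  have hpos : (0 : ℝ) < Fintype.card (Om i) := by exact_mod_cast Fintype.card_pos
  have h2 : ∑ y : Om i, X y ≤ c * Fintype.card (Om i) := by
    rw [hX, om_sum i G]
    calc _ ≤ ∑ τ ∈ range (pr i ^ 2 * pr i ^ 2), c * Fintype.card (Idx (pr i) → Fin (pr i ^ 2)) := by
          refine sum_le_sum fun τ _ => ?_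
          rw [hGc]
          exact spread_prob (cvs i) (cvs j) (pr_pos i) (pr_pos j) (pr_coprime hij)
            (Nat.pow_le_pow_left (pr_lt hij).le 2) R K τ hL hB
      _ = c * Fintype.card (Om i) := by
          rw [sum_const, card_range, nsmul_eq_mul, Fintype.card_prod, Fintype.card_fin]
          push_cast
          ring
  calc _ ≤ (Fintype.card (∀ i : Fin J, Om i) : ℝ) * (c * Fintype.card (Om i) / Fintype.card (Om i)) := by
        gcongr
    _ = _ := by
        rw [mul_div_assoc, div_self hpos.ne', mul_one, mul_comm]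

/-- exponential moment of the truncated number of coincidences -/
lemma YY_moment {R i j : ℕ} (hR : 0 < R) (hij : i < j) (hqM : pr j ^ 2 ≤ (R + 1) * (pr i ^ 2 * pr i ^ 2))
    (ρ Y : ℕ) (hY : 216 * R * pr j ≤ Y) {e : ℝ} :
    ∑ y : Om i, Real.exp (e / Y) ^ (YY R i j ρ Y y) ≤ Fintype.card (Om i) *
      (1 + ((R : ℝ) + 2) * ((pr i : ℝ) ^ 2 / ((pr j ^ 2 : ℕ) : ℝ)) * Real.exp e) := by
  have hi : (0 : ℝ) < pr i := by exact_mod_cast pr_pos i
  have hj : (0 : ℝ) < pr j := by exact_mod_cast pr_pos j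
  have hR' : (0 : ℝ) < R := by exact_mod_cast hR
  have hY' : (216 : ℝ) * R * pr j ≤ Y := by exact_mod_cast hY
  have hY0 : (0 : ℝ) < Y := lt_of_lt_of_le (by positivity) hY'
  have h1 : ∀ y : Om i, Real.exp (e / Y) ^ (YY R i j ρ Y y) ≤
      1 + (RR R i j ρ y : ℝ) / Y * Real.exp e := by
    intro y
    have h2 : (YY R i j ρ Y y : ℝ) ≤ Y := by
      have : YY R i j ρ Y y ≤ Y := min_le_right _ _
      exact_mod_cast this
    have h3 : (YY R i j ρ Y y : ℝ) ≤ RR R i j ρ y := by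
      have : YY R i j ρ Y y ≤ RR R i j ρ y := min_le_left _ _
      exact_mod_cast this
    have h4 := exp_convex (E := e) (y := (YY R i j ρ Y y : ℝ) / Y) (by positivity)
      (by rw [div_le_one hY0]; exact h2)
    calc Real.exp (e / Y) ^ (YY R i j ρ Y y) = Real.exp (e * ((YY R i j ρ Y y : ℝ) / Y)) := by
          rw [← Real.exp_nat_mul]
          congr 1
          field_simp
      _ ≤ 1 + (YY R i j ρ Y y : ℝ) / Y * Real.exp e := h4
      _ ≤ _ := by gcongr
  have h5 : ∑ y : Om i, (RR R i j ρ y : ℝ) ≤ Fintype.card (Om i) *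
      (216 * R * (R + 2) * (pr i : ℝ) ^ 2 / pr j) := by
    have h6 := R1_mean (cvs i) (cvs j) (R := R) (pr_pos i) (pr_pos j) (pr_coprime hij)
      (Nat.pow_le_pow_left (pr_lt hij).le 2) hqM ρ
    have h7 := om_sum i (fun τ t => (R1 (cvs j) (scaleSet (cvs i) R τ (fun ι => (t ι : ℕ))) ρ : ℝ))
    have h8 : ∑ y : Om i, (RR R i j ρ y : ℝ) =
        ∑ y : Om i, (R1 (cvs j) (scaleSet (cvs i) R (y.1 : ℕ) (fun ι => (y.2 ι : ℕ))) ρ : ℝ) := rfl
    rw [h8, h7]
    refine h6.trans (le_of_eq ?_)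
    rw [Fintype.card_prod, Fintype.card_fin]
    push_cast
    ring
  calc _ ≤ ∑ y : Om i, (1 + (RR R i j ρ y : ℝ) / Y * Real.exp e) := sum_le_sum fun y _ => h1 y
    _ = Fintype.card (Om i) + (∑ y : Om i, (RR R i j ρ y : ℝ)) / Y * Real.exp e := by
        rw [sum_add_distrib, ← sum_mul, ← sum_div]
        simp
    _ ≤ Fintype.card (Om i) + (Fintype.card (Om i) *
      (216 * R * (R + 2) * (pr i : ℝ) ^ 2 / pr j)) / (216 * R * pr j) * Real.exp e := by
        gcongr
    _ = _ := by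
        push_cast
        field_simp

open Classical in
lemma sum_prob {R j0 j J L Y ν : ℕ} (hR : 0 < R) (hj : j < J) (hY : 216 * R * pr j ≤ Y)
    {e : ℝ} (he : 0 ≤ e) (hG : 4 * ((R : ℝ) + 2) * Real.exp e ≤ 4 ^ L) :
    ((univ.filter (fun x : (∀ i : Fin J, Om i) =>
      ∃ ρ < pr j ^ 2, ν ≤ ∑ i ∈ Irel R j0 j, YY R i j ρ Y (ext Om x i))).card : ℝ) ≤
      ((pr j ^ 2 : ℕ) : ℝ) * (2 * 4 ^ (L ^ 2)) / Real.exp (e / Y) ^ ν *
        Fintype.card (∀ i : Fin J, Om i) := by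
  set q := pr j ^ 2 with hq
  set B : ℝ := Real.exp (e / Y) with hB
  have hB1 : 1 ≤ B := Real.one_le_exp (by positivity)
  set T : ℕ → (∀ i, Om i) → ℕ := fun ρ x => ∑ i ∈ Irel R j0 j, YY R i j ρ Y (x i) with hT
  set P : ℝ := ((Fintype.card (∀ i : Fin J, Om i) : ℕ) : ℝ) with hP
  have hP0 : 0 ≤ P := by positivity
  have hBν : (0 : ℝ) < B ^ ν := by positivity
  have hIJ : Irel R j0 j ⊆ range J := by
    intro i hi
    exact mem_range.2 ((mem_Ico.1 (mem_filter.1 hi).1).2.trans hj)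
  have hmom : ∀ ρ, ∑ x : (∀ i : Fin J, Om i), B ^ (T ρ (ext Om x)) ≤ P * (2 * 4 ^ (L ^ 2)) := by
    intro ρ
    set f : ∀ i : Fin J, Om i → ℝ := fun i y => if (i : ℕ) ∈ Irel R j0 j then
      B ^ (YY R i j ρ Y y) else 1 with hf
    have h1 : ∀ x : (∀ i : Fin J, Om i), B ^ (T ρ (ext Om x)) = ∏ i, f i (x i) := by
      intro x
      set g : ℕ → ℝ := fun i => if i ∈ Irel R j0 j then
        B ^ (YY R i j ρ Y (ext Om x i)) else 1 with hg
      have h2 : ∏ i, f i (x i) = ∏ i : Fin J, g i := by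
        refine prod_congr rfl fun i _ => ?_
        rw [hf, hg]
        simp only
        rw [ext_apply Om x i i.2]
      rw [h2, Fin.prod_univ_eq_prod_range g J, hg, prod_ite_mem, inter_eq_right.2 hIJ,
        prod_pow_eq_pow_sum]
    simp_rw [h1]
    rw [sum_pi (fun i : Fin J => Om i) f]
    set h : Fin J → ℝ := fun i => if (i : ℕ) ∈ Irel R j0 j then
      (1 + ((R : ℝ) + 2) * ((pr i : ℝ) ^ 2 / (q : ℝ)) * Real.exp e) else 1 with hh
    have h3 : ∀ i : Fin J, ∑ y, f i y ≤ Fintype.card (Om i) * h i := by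
      intro i
      by_cases hi : (i : ℕ) ∈ Irel R j0 j
      · have hi1 := mem_filter.1 hi
        have hij : (i : ℕ) < j := (mem_Ico.1 hi1.1).2
        have e1 : h i = (1 + ((R : ℝ) + 2) * ((pr i : ℝ) ^ 2 / (q : ℝ)) *
            Real.exp e) := by
          rw [hh]; simp only [hi, if_true]
        have e2 : ∑ y, f i y = ∑ y : Om i, B ^ (YY R i j ρ Y y) := by
          rw [hf]; simp only [hi, if_true]
        rw [e1, e2]
        exact YY_moment hR hij hi1.2 ρ Y hY
      · rw [hh, hf]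
        simp [hi]
    calc ∏ i, ∑ y, f i y ≤ ∏ i : Fin J, (Fintype.card (Om i) * h i) := by
          refine prod_le_prod (fun i _ => sum_nonneg fun y _ => ?_) (fun i _ => h3 i)
          rw [hf]
          simp only
          split_ifs <;> positivity
      _ = P * ∏ i : Fin J, h i := by
          rw [prod_mul_distrib, hP, Fintype.card_pi]
          push_cast
          rfl
      _ ≤ P * (2 * 4 ^ (L ^ 2)) := by
          refine mul_le_mul_of_nonneg_left ?_ hP0
          have e3 : ∏ i : Fin J, h i = ∏ i ∈ Irel R j0 j,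
              (1 + ((R : ℝ) + 2) * ((pr i : ℝ) ^ 2 / (q : ℝ)) * Real.exp e) := by
            rw [hh, Fin.prod_univ_eq_prod_range (fun i : ℕ => if i ∈ Irel R j0 j then
              (1 + ((R : ℝ) + 2) * ((pr i : ℝ) ^ 2 / (q : ℝ)) * Real.exp e) else 1) J,
              prod_ite_mem, inter_eq_right.2 hIJ]
          rw [e3]
          exact prod_rel hG (Real.exp_pos _).le
  have hsub : univ.filter (fun x : (∀ i : Fin J, Om i) =>
      ∃ ρ < q, ν ≤ ∑ i ∈ Irel R j0 j, YY R i j ρ Y (ext Om x i)) ⊆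
      (range q).biUnion (fun ρ => univ.filter (fun x : (∀ i : Fin J, Om i) =>
        ν ≤ T ρ (ext Om x))) := by
    intro x hx
    obtain ⟨ρ, hρ, hν⟩ := (mem_filter.1 hx).2
    rw [mem_biUnion]
    exact ⟨ρ, mem_range.2 hρ, mem_filter.2 ⟨mem_univ _, hν⟩⟩
  have hc : ∀ ρ, ((univ.filter (fun x : (∀ i : Fin J, Om i) => ν ≤ T ρ (ext Om x))).card : ℝ) ≤
      P * (2 * 4 ^ (L ^ 2)) / B ^ ν := by
    intro ρ
    rw [le_div_iff₀ hBν]
    calc ((univ.filter (fun x : (∀ i : Fin J, Om i) => ν ≤ T ρ (ext Om x))).card : ℝ) * B ^ ν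
        = ∑ x ∈ univ.filter (fun x : (∀ i : Fin J, Om i) => ν ≤ T ρ (ext Om x)), B ^ ν := by
          rw [sum_const, nsmul_eq_mul]
      _ ≤ ∑ x ∈ univ.filter (fun x : (∀ i : Fin J, Om i) => ν ≤ T ρ (ext Om x)),
          B ^ (T ρ (ext Om x)) :=
          sum_le_sum fun x hx => pow_le_pow_right₀ hB1 (mem_filter.1 hx).2
      _ ≤ ∑ x : (∀ i : Fin J, Om i), B ^ (T ρ (ext Om x)) :=
          sum_le_sum_of_subset_of_nonneg (subset_univ _) fun _ _ _ => by positivity
      _ ≤ _ := hmom ρ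
  calc _ ≤ ((∑ ρ ∈ range q, (univ.filter (fun x : (∀ i : Fin J, Om i) =>
        ν ≤ T ρ (ext Om x))).card : ℕ) : ℝ) := by
        exact_mod_cast (card_le_card hsub).trans card_biUnion_le
    _ ≤ ∑ ρ ∈ range q, P * (2 * 4 ^ (L ^ 2)) / B ^ ν := by
        push_cast
        exact sum_le_sum fun ρ _ => hc ρ
    _ = _ := by
        rw [sum_const, card_range, nsmul_eq_mul]
        ring

end Pool.Agent.N885.ET
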